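import Mathlib

set_option autoImplicit false
set_option linter.all false

namespace Pool.Agent.T9h64.NW

open MvPolynomial

theorem aeval_mul_homog {n k : ℕ} {A : Type*} [CommRing A] [Algebra ℂ A]
    (Q : MvPolynomial (Fin n) ℂ) (hQ : Q.IsHomogeneous k) (c : A) (v : Fin n → A) :
    aeval (fun i => c * v i) Q = c ^ k * aeval v Q := by
  rw [aeval_def, aeval_def, eval₂_eq', eval₂_eq', Finset.mul_sum]
  refine Finset.sum_congr rfl fun d hd => ?_
  have h1 := hQ (mem_support_iff.mp hd)
  rw [Finsupp.weight_apply, Finsupp.sum_fintype _ _ (by simp)] at h1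
  simp only [smul_eq_mul, mul_one, Pi.one_apply] at h1
  simp_rw [mul_pow]
  rw [Finset.prod_mul_distrib, Finset.prod_pow_eq_pow_sum, h1]
  ring

/-- If a polynomial vanishes along curves through `a` with every tangent direction, it is zero. -/
theorem low_term {n : ℕ} (P : MvPolynomial (Fin n) ℂ) (a : Fin n → ℂ)
    (h : ∀ y : Fin n → ℂ, ∃ p : Fin n → Polynomial ℂ, (∀ i, (p i).coeff 0 = a i) ∧
      (∀ i, (p i).coeff 1 = y i) ∧ aeval p P = 0) : P = 0 := by
  set Q : MvPolynomial (Fin n) ℂ := aeval (fun i => X i + C (a i)) P with hQ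
  have hback : aeval (fun i => X i - C (a i)) Q = P := by
    rw [hQ, ← AlgHom.comp_apply, comp_aeval]
    have : (fun i => (aeval fun i => X i - C (a i)) (X i + C (a i))) =
        (X : Fin n → MvPolynomial (Fin n) ℂ) := by
      funext i
      simp
    rw [this, aeval_X_left]
    rfl
  by_cases hQ0 : Q = 0
  · rw [← hback, hQ0, map_zero]
  exfalso
  have hex : ∃ k, homogeneousComponent k Q ≠ 0 := by
    by_contra hne
    push Not at hne
    apply hQ0
    rw [← sum_homogeneousComponent Q]
    exact Finset.sum_eq_zero fun k _ => hne k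
  classical
  obtain ⟨e, he, hmin⟩ : ∃ e, homogeneousComponent e Q ≠ 0 ∧
      ∀ k < e, homogeneousComponent k Q = 0 := by
    refine ⟨Nat.find hex, Nat.find_spec hex, fun k hk => ?_⟩
    have := Nat.find_min hex hk
    simpa using this
  apply he
  apply MvPolynomial.funext
  intro y
  rw [map_zero]
  obtain ⟨p, hp0, hp1, hp⟩ := h y
  set v : Fin n → Polynomial ℂ := fun i => (p i).divX with hv
  have hpv : ∀ i, p i = Polynomial.X * v i + Polynomial.C (a i) := by
    intro i
    rw [← hp0 i]
    exact (Polynomial.X_mul_divX_add (p i)).symm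
  have h1 : aeval (fun i => Polynomial.X * v i) Q = 0 := by
    rw [hQ, ← AlgHom.comp_apply, comp_aeval]
    have : (fun i => (aeval fun i => Polynomial.X * v i) (X i + C (a i))) = p := by
      funext i
      rw [hpv i]
      simp
    rw [this]
    exact hp
  rw [← sum_homogeneousComponent Q, map_sum] at h1
  have h2 : ∀ k, aeval (fun i => Polynomial.X * v i) (homogeneousComponent k Q) =
      Polynomial.X ^ k * aeval v (homogeneousComponent k Q) := fun k =>
    aeval_mul_homog _ (homogeneousComponent_isHomogeneous k Q) _ _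
  simp_rw [h2] at h1
  have h3 := congrArg (fun r => Polynomial.coeff r e) h1
  simp only [Polynomial.finset_sum_coeff, Polynomial.coeff_zero] at h3
  have he_mem : e ∈ Finset.range (Q.totalDegree + 1) := by
    rw [Finset.mem_range]
    by_contra hlt
    apply he
    exact homogeneousComponent_eq_zero e Q (by omega)
  rw [Finset.sum_eq_single e] at h3
  · rw [Polynomial.coeff_X_pow_mul'] at h3
    simp only [le_refl, if_true, Nat.sub_self] at h3
    rw [← h3, Polynomial.coeff_zero_eq_eval_zero]
    have h4 : ∀ R : MvPolynomial (Fin n) ℂ, Polynomial.eval 0 (aeval v R) =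
        eval (fun i => Polynomial.eval 0 (v i)) R := by
      intro R
      have : (Polynomial.evalRingHom (0 : ℂ)).comp (aeval v : MvPolynomial (Fin n) ℂ →ₐ[ℂ] _).toRingHom =
          eval (fun i => Polynomial.eval 0 (v i)) := by
        apply MvPolynomial.ringHom_ext
        · intro r; simp
        · intro i; simp
      exact congrArg (fun f => f R) this
    rw [h4]
    congr 2
    funext i
    rw [← Polynomial.coeff_zero_eq_eval_zero, hv]
    simp only [Polynomial.coeff_divX]
    exact (hp1 i).symm
  · intro k _ hk
    rcases lt_or_gt_of_ne hk with hlt | hgt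
    · rw [hmin k hlt]; simp
    · rw [Polynomial.coeff_X_pow_mul', if_neg (by omega)]
  · intro hne
    exact absurd he_mem hne

end Pool.Agent.T9h64.NW
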