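import Pool.Agent.T9h64.NW.Basic

set_option autoImplicit false
set_option linter.all false

namespace Pool.Agent.T9h64.NW

open MvPolynomial

/-- fewer than 65 parameters: there is an algebraic relation among the coefficients. -/
theorem exists_rel {σ : Type} [Fintype σ] (hσ : Fintype.card σ < 65)
    (Φ : Polynomial (MvPolynomial σ ℂ)) :
    ∃ P0 : MvPolynomial (Fin 65) ℂ, P0 ≠ 0 ∧
      ∀ w : σ → ℂ, eval (fun i : Fin 65 => (Φ.map (eval w)).coeff (i : ℕ)) P0 = 0 := by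
  set ψ : Fin 65 → MvPolynomial σ ℂ := fun i => Φ.coeff (i : ℕ) with hψ
  have hnot : ¬ AlgebraicIndependent ℂ ψ := by
    intro h
    have h1 := h.cardinalMk_le_trdeg
    rw [MvPolynomial.trdeg_of_isDomain] at h1
    simp only [Cardinal.mk_fin, Cardinal.mk_fintype, Cardinal.lift_natCast] at h1
    have h2 : (65 : ℕ) ≤ Fintype.card σ := by exact_mod_cast h1
    omega
  rw [algebraicIndependent_iff] at hnot
  push Not at hnot
  obtain ⟨P0, h0, hne⟩ := hnot
  refine ⟨P0, hne, fun w => ?_⟩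
  have := congrArg (eval w) h0
  rw [map_zero] at this
  rw [← this, ← MvPolynomial.coe_aeval_eq_eval, ← MvPolynomial.coe_aeval_eq_eval]
  change _ = (aeval w) ((aeval ψ) P0)
  rw [← AlgHom.comp_apply, MvPolynomial.comp_aeval]
  simp only [hψ, Polynomial.coeff_map]
  rfl

section homog

variable {A : Type*} [CommRing A] [Algebra ℂ A] {n : ℕ}

/-- values at `y` of forms of degree `k` -/
noncomputable def Hk (y : Fin n → A) (k : ℕ) : Submodule ℂ A :=
  (homogeneousSubmodule (Fin n) ℂ k).map (aeval y).toLinearMap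

theorem Hk_mul (y : Fin n → A) {k l : ℕ} {a b : A} (ha : a ∈ Hk y k) (hb : b ∈ Hk y l) :
    a * b ∈ Hk y (k + l) := by
  obtain ⟨p, hp, rfl⟩ := ha
  obtain ⟨q, hq, rfl⟩ := hb
  refine ⟨p * q, ?_, by simp⟩
  exact IsHomogeneous.mul hp hq

theorem Hk_gen (y : Fin n → A) (i : Fin n) : y i ∈ Hk y 1 :=
  ⟨X i, isHomogeneous_X _ _, by simp⟩

/-- index set of monomials -/
abbrev Mon (n k : ℕ) := {m // m ∈ (Finset.univ : Finset (Fin n)).finsuppAntidiag k}

theorem card_Mon (n k : ℕ) : Fintype.card (Mon n k) = (n + k - 1).choose k := by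
  rw [Fintype.card_coe, Finset.card_finsuppAntidiag_nat_eq_choose, Finset.card_univ,
    Fintype.card_fin]

theorem Hk_repr (y : Fin n → A) (k : ℕ) {a : A} (ha : a ∈ Hk y k) :
    ∃ c : Mon n k → ℂ, a = ∑ m : Mon n k, algebraMap ℂ A (c m) * ∏ i, y i ^ (m.1 i) := by
  obtain ⟨p, hp, rfl⟩ := ha
  refine ⟨fun m => coeff m.1 p, ?_⟩
  have hsub : p.support ⊆ (Finset.univ : Finset (Fin n)).finsuppAntidiag k := by
    intro m hm
    rw [Finset.mem_finsuppAntidiag]
    refine ⟨?_, Finset.subset_univ _⟩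
    have h1 := hp (mem_support_iff.mp hm)
    rw [Finsupp.weight_apply, Finsupp.sum_fintype _ _ (by simp)] at h1
    simpa using h1
  change aeval y p = _
  rw [aeval_def, eval₂_eq']
  rw [Finset.sum_subset hsub]
  · rw [← Finset.sum_coe_sort]
  · intro m _ hm
    rw [notMem_support_iff.mp hm]
    simp

end homog

theorem layer_Hk {A : Type*} [CommRing A] [Algebra ℂ A] {n : ℕ} (y : Fin n → A) (k : ℕ)
    (e : ℕ) (w : ℕ → ℕ → ℂ) (h : ℕ → A) (hh : ∀ b < e, h b ∈ Hk y k) (a : ℕ) :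
    layer e w 2 h a ∈ Hk y (k + k) := by
  refine layer_mem _ _ _ _ _ (fun b hb => ?_) a
  rw [pow_two]; exact Hk_mul y (hh b hb) (hh b hb)

theorem layer_Hk1 {A : Type*} [CommRing A] [Algebra ℂ A] {n : ℕ}
    (e : ℕ) (he : e ≤ n) (w : ℕ → ℕ → ℂ) (h : ℕ → A) (a : ℕ) :
    layer e w 2 h a ∈ Hk (fun i : Fin n => h i ^ 2) 1 := by
  refine layer_mem _ _ _ _ _ (fun b hb => ?_) a
  exact Hk_gen (fun i : Fin n => h i ^ 2) ⟨b, by omega⟩

theorem layer_fin {A : Type*} [CommRing A] [Algebra ℂ A] {n : ℕ}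
    (e : ℕ) (he : e ≤ n) (w : ℕ → ℕ → ℂ) (r : ℕ) (h : ℕ → A) (a : ℕ) :
    layer e w r h a = ∑ b : Fin n, algebraMap ℂ A (if (b : ℕ) < e then w a b else 0) * h b ^ r := by
  rw [Fin.sum_univ_eq_sum_range (fun b => algebraMap ℂ A (if b < e then w a b else 0) * h b ^ r) n]
  unfold layer
  have : Finset.range e ⊆ Finset.range n := Finset.range_subset_range.mpr he
  rw [← Finset.sum_subset this]
  · refine Finset.sum_congr rfl fun b hb => ?_
    rw [if_pos (Finset.mem_range.mp hb)]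
  · intro b _ hb
    rw [if_neg (by simpa using hb)]
    simp

theorem layer_deg (e : ℕ) (w : ℕ → ℕ → ℂ) (D : ℕ) (h : ℕ → Polynomial ℂ)
    (hh : ∀ b < e, (h b).natDegree ≤ D) (a : ℕ) : (layer e w 2 h a).natDegree ≤ D + D := by
  have : layer e w 2 h a ∈ Polynomial.degreeLE ℂ ((D + D : ℕ) : WithBot ℕ) := by
    refine layer_mem _ _ _ _ _ (fun b hb => ?_) a
    rw [Polynomial.mem_degreeLE, ← Polynomial.natDegree_le_iff_degree_le]
    refine (Polynomial.natDegree_pow_le).trans ?_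
    have := hh b hb
    omega
  rw [Polynomial.mem_degreeLE, ← Polynomial.natDegree_le_iff_degree_le] at this
  exact this

theorem layer0_deg (w : ℕ → ℕ → ℂ) (a : ℕ) : (layer 2 w 1 u0 a).natDegree ≤ 1 := by
  have : layer 2 w 1 u0 a ∈ Polynomial.degreeLE ℂ ((1 : ℕ) : WithBot ℕ) := by
    refine layer_mem _ _ _ _ _ (fun b hb => ?_) a
    rw [Polynomial.mem_degreeLE, ← Polynomial.natDegree_le_iff_degree_le, pow_one]
    unfold u0
    split_ifs <;> simp
  rw [Polynomial.mem_degreeLE, ← Polynomial.natDegree_le_iff_degree_le] at this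
  exact this

/-- polynomial from its first `n` coefficients -/
noncomputable def pol {R : Type*} [CommRing R] {n : ℕ} (g : Fin n → R) : Polynomial R :=
  ∑ j : Fin n, Polynomial.C (g j) * Polynomial.X ^ (j : ℕ)

theorem pol_map {R S : Type*} [CommRing R] [CommRing S] (f : R →+* S) {n : ℕ} (g : Fin n → R) :
    (pol g).map f = pol (fun j => f (g j)) := by
  simp [pol, Polynomial.map_sum]

theorem pol_coeff {n : ℕ} (p : Polynomial ℂ) (hp : p.natDegree < n) :
    pol (fun j : Fin n => p.coeff j) = p := by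
  conv_rhs => rw [p.as_sum_range' n hp]
  unfold pol
  rw [Fin.sum_univ_eq_sum_range (fun j => Polynomial.C (p.coeff j) * Polynomial.X ^ j) n]
  refine Finset.sum_congr rfl fun j _ => ?_
  rw [Polynomial.C_mul_X_pow_eq_monomial]

/-- a form with coefficients `F` evaluated at `z` -/
noncomputable def form {R : Type*} [CommRing R] {n k : ℕ} (F : Mon n k → R)
    (z : Fin n → Polynomial R) : Polynomial R :=
  ∑ m : Mon n k, Polynomial.C (F m) * ∏ i, z i ^ (m.1 i)

theorem form_map {R S : Type*} [CommRing R] [CommRing S] (f : R →+* S) {n k : ℕ}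
    (F : Mon n k → R) (z : Fin n → Polynomial R) :
    (form F z).map f = form (fun m => f (F m)) (fun i => (z i).map f) := by
  simp [form, Polynomial.map_sum, Polynomial.map_prod]

/-! ### Case 1: `e 4 ≤ 3` -/

theorem not_fill_1 (e : Fin 8 → ℕ) (he0 : e 0 = 2) (he7 : e 7 = 1) (he4 : e 4 ≤ 3) :
    ¬ Fill e := by
  let σ := Mon 3 4 ⊕ (Fin 3 × Fin 9)
  have hσ : Fintype.card σ < 65 := by
    simp only [σ, Fintype.card_sum, card_Mon, Fintype.card_prod, Fintype.card_fin]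
    decide
  let Φ : Polynomial (MvPolynomial σ ℂ) :=
    form (fun m => X (Sum.inl m)) (fun i : Fin 3 => (pol (fun j : Fin 9 => X (Sum.inr (i, j)))) ^ 2)
  obtain ⟨P0, hP0, hrel⟩ := exists_rel hσ Φ
  refine not_fill_of e he0 he7 P0 hP0 fun W => ?_
  unfold net
  rw [he0]
  set u4 := (layer (e 3) (W 3) 2 (layer (e 2) (W 2) 2 (layer (e 1) (W 1) 2 (layer 2 (W 0) 1 u0))))
    with hu4
  have hdeg : ∀ b, (u4 b).natDegree ≤ 8 := fun b =>
    layer_deg _ _ 4 _ (fun b _ => layer_deg _ _ 2 _ (fun b _ => layer_deg _ _ 1 _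
      (fun b _ => layer0_deg _ _) _) _) _
  have hmem : layer (e 6) (W 6) 2 (layer (e 5) (W 5) 2 (layer (e 4) (W 4) 2 u4)) 0 ∈
      Hk (fun i : Fin 3 => u4 i ^ 2) 4 :=
    layer_Hk _ 2 _ _ _ (fun b _ => layer_Hk _ 1 _ _ _ (fun b _ => layer_Hk1 _ he4 _ _ _) _) _
  obtain ⟨c, hc⟩ := Hk_repr _ _ hmem
  have key : layer (e 6) (W 6) 2 (layer (e 5) (W 5) 2 (layer (e 4) (W 4) 2 u4)) 0 =
      Φ.map (eval (Sum.elim c (fun ij => (u4 ij.1).coeff ij.2))) := by
    rw [hc, form_map]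
    unfold form
    refine Finset.sum_congr rfl fun m _ => ?_
    simp only [eval_X, Sum.elim_inl]
    congr 1
    refine Finset.prod_congr rfl fun i _ => ?_
    rw [Polynomial.map_pow, pol_map]
    simp only [eval_X, Sum.elim_inr]
    rw [pol_coeff _ (by have := hdeg i; omega)]
  rw [key]
  exact hrel _

/-! ### Case 3: `e 4 ≤ 4`, `e 5 ≤ 4` -/

theorem not_fill_3 (e : Fin 8 → ℕ) (he0 : e 0 = 2) (he7 : e 7 = 1) (he4 : e 4 ≤ 4)
    (he5 : e 5 ≤ 4) : ¬ Fill e := by
  let σ := Mon 4 2 ⊕ ((Fin 4 × Fin 4) ⊕ (Fin 4 × Fin 9))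
  have hσ : Fintype.card σ < 65 := by
    simp only [σ, Fintype.card_sum, card_Mon, Fintype.card_prod, Fintype.card_fin]
    decide
  let Φ : Polynomial (MvPolynomial σ ℂ) :=
    form (fun m => X (Sum.inl m)) (fun i : Fin 4 =>
      (∑ b : Fin 4, Polynomial.C (X (Sum.inr (Sum.inl (i, b)))) *
        (pol (fun j : Fin 9 => (X (Sum.inr (Sum.inr (b, j))) : MvPolynomial σ ℂ))) ^ 2) ^ 2)
  obtain ⟨P0, hP0, hrel⟩ := exists_rel hσ Φ
  refine not_fill_of e he0 he7 P0 hP0 fun W => ?_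
  unfold net
  rw [he0]
  set u4 := (layer (e 3) (W 3) 2 (layer (e 2) (W 2) 2 (layer (e 1) (W 1) 2 (layer 2 (W 0) 1 u0))))
    with hu4
  have hdeg : ∀ b, (u4 b).natDegree ≤ 8 := fun b =>
    layer_deg _ _ 4 _ (fun b _ => layer_deg _ _ 2 _ (fun b _ => layer_deg _ _ 1 _
      (fun b _ => layer0_deg _ _) _) _) _
  have hmem : layer (e 6) (W 6) 2 (layer (e 5) (W 5) 2 (layer (e 4) (W 4) 2 u4)) 0 ∈
      Hk (fun i : Fin 4 => (layer (e 4) (W 4) 2 u4) i ^ 2) 2 :=
    layer_Hk _ 1 _ _ _ (fun b _ => layer_Hk1 _ he5 _ _ _) _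
  obtain ⟨c, hc⟩ := Hk_repr _ _ hmem
  have key : layer (e 6) (W 6) 2 (layer (e 5) (W 5) 2 (layer (e 4) (W 4) 2 u4)) 0 =
      Φ.map (eval (Sum.elim c (Sum.elim (fun ib => if (ib.2 : ℕ) < e 4 then W 4 ib.1 ib.2 else 0)
        (fun bj => (u4 bj.1).coeff bj.2)))) := by
    rw [hc, form_map]
    unfold form
    refine Finset.sum_congr rfl fun m _ => ?_
    simp only [eval_X, Sum.elim_inl]
    congr 1
    refine Finset.prod_congr rfl fun i _ => ?_
    rw [Polynomial.map_pow, Polynomial.map_sum, layer_fin (n := 4) _ he4]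
    congr 2
    refine Finset.sum_congr rfl fun b _ => ?_
    rw [Polynomial.map_mul, Polynomial.map_pow, pol_map, Polynomial.map_C]
    simp only [eval_X, Sum.elim_inr, Sum.elim_inl]
    rw [pol_coeff _ (by have := hdeg b; omega)]
    rfl
  rw [key]
  exact hrel _

/-! ### Case 2: `e 4 ≤ 4`, `e 3 ≤ 4` -/

section case2

variable {ι : Type} [Fintype ι] (E : ι → Fin 4 → ℕ)

/-- the full family -/
noncomputable def full {R : Type*} [CommRing R] (F : ι → R) (w : Fin 4 → Fin 4 → R)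
    (g : Fin 4 → Fin 5 → R) : Polynomial R :=
  ∑ m : ι, Polynomial.C (F m) *
    ∏ b, ((∑ j : Fin 4, Polynomial.C (w b j) * (pol (g j)) ^ 2) ^ 2) ^ (E m b)

theorem full_map {R S : Type*} [CommRing R] [CommRing S] (f : R →+* S) (F : ι → R)
    (w : Fin 4 → Fin 4 → R) (g : Fin 4 → Fin 5 → R) :
    (full E F w g).map f =
      full E (fun m => f (F m)) (fun b j => f (w b j)) (fun j k => f (g j k)) := by
  simp [full, Polynomial.map_sum, Polynomial.map_prod, pol_map]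

/-- rescaling -/
theorem full_scale (F : ι → ℂ) (w : Fin 4 → Fin 4 → ℂ) (g : Fin 4 → Fin 5 → ℂ)
    (hw : ∀ b, w b 0 ≠ 0) (hg : ∀ j, g j 0 ≠ 0) :
    full E F w g = full E (fun m => F m * ∏ b, ((w b 0 * g 0 0 ^ 2) ^ 2) ^ (E m b))
      (fun b j => w b j * g j 0 ^ 2 / (w b 0 * g 0 0 ^ 2)) (fun j k => g j k / g j 0) := by
  unfold full
  refine Finset.sum_congr rfl fun m _ => ?_
  rw [Polynomial.C_mul, mul_assoc]
  congr 1
  rw [map_prod, ← Finset.prod_mul_distrib]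
  refine Finset.prod_congr rfl fun b _ => ?_
  rw [map_pow, ← mul_pow, map_pow, ← mul_pow]
  congr 2
  rw [Finset.mul_sum]
  refine Finset.sum_congr rfl fun j _ => ?_
  rw [← mul_assoc, ← Polynomial.C_mul]
  have h1 : pol (g j) = Polynomial.C (g j 0) * pol (fun k => g j k / g j 0) := by
    unfold pol
    rw [Finset.mul_sum]
    refine Finset.sum_congr rfl fun k _ => ?_
    rw [← mul_assoc, ← Polynomial.C_mul, mul_div_cancel₀ _ (hg j)]
  rw [h1, mul_pow, ← mul_assoc, ← Polynomial.C_pow, ← Polynomial.C_mul]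
  congr 2
  have h2 : w b 0 * g 0 0 ^ 2 ≠ 0 := mul_ne_zero (hw b) (pow_ne_zero _ (hg 0))
  rw [mul_div_cancel₀ _ h2]

theorem eval_aeval_coeff {σ : Type} (Φ : Polynomial (MvPolynomial σ ℂ))
    (P0 : MvPolynomial (Fin 65) ℂ) (v : σ → ℂ) :
    eval v (aeval (fun i : Fin 65 => Φ.coeff (i : ℕ)) P0) =
      eval (fun i : Fin 65 => (Φ.map (eval v)).coeff (i : ℕ)) P0 := by
  rw [← MvPolynomial.coe_aeval_eq_eval, ← MvPolynomial.coe_aeval_eq_eval]
  change (aeval v) ((aeval _) P0) = _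
  rw [← AlgHom.comp_apply, MvPolynomial.comp_aeval]
  simp only [Polynomial.coeff_map]
  rfl

theorem case2_gen (P0 : MvPolynomial (Fin 65) ℂ)
    (hrel : ∀ v : ι ⊕ ((Fin 4 × Fin 3) ⊕ (Fin 4 × Fin 4)) → ℂ,
      eval (fun i : Fin 65 => (full E (fun m => v (Sum.inl m))
        (fun b j => Fin.cases (motive := fun _ => ℂ) 1 (fun j' => v (Sum.inr (Sum.inl (b, j')))) j)
        (fun j k => Fin.cases (motive := fun _ => ℂ) 1 (fun k' => v (Sum.inr (Sum.inr (j, k')))) k)).coeff (i : ℕ)) P0 = 0)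
    (F : ι → ℂ) (w : Fin 4 → Fin 4 → ℂ) (g : Fin 4 → Fin 5 → ℂ)
    (hw : ∀ b, w b 0 ≠ 0) (hg : ∀ j, g j 0 ≠ 0) :
    eval (fun i : Fin 65 => (full E F w g).coeff (i : ℕ)) P0 = 0 := by
  rw [full_scale E F w g hw hg]
  have h := hrel (Sum.elim (fun m => F m * ∏ b, ((w b 0 * g 0 0 ^ 2) ^ 2) ^ (E m b))
    (Sum.elim (fun bj => w bj.1 bj.2.succ * g bj.2.succ 0 ^ 2 / (w bj.1 0 * g 0 0 ^ 2))
      (fun jk => g jk.1 jk.2.succ / g jk.1 0)))
  have e1 : (fun (b j : Fin 4) => w b j * g j 0 ^ 2 / (w b 0 * g 0 0 ^ 2)) =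
      (fun b j => Fin.cases (motive := fun _ => ℂ) 1
        (fun j' => w b j'.succ * g j'.succ 0 ^ 2 / (w b 0 * g 0 0 ^ 2)) j) := by
    funext b j
    refine Fin.cases ?_ (fun j' => ?_) j
    · simp only [Fin.cases_zero]
      exact div_self (mul_ne_zero (hw b) (pow_ne_zero _ (hg 0)))
    · simp only [Fin.cases_succ]
  have e2 : (fun (j : Fin 4) (k : Fin 5) => g j k / g j 0) =
      (fun j k => Fin.cases (motive := fun _ => ℂ) 1 (fun k' => g j k'.succ / g j 0) k) := by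
    funext j k
    refine Fin.cases ?_ (fun k' => ?_) k
    · simp only [Fin.cases_zero]
      exact div_self (hg j)
    · simp only [Fin.cases_succ]
  rw [e1, e2]
  exact h

theorem case2_all (P0 : MvPolynomial (Fin 65) ℂ)
    (hgen : ∀ (F : ι → ℂ) (w : Fin 4 → Fin 4 → ℂ) (g : Fin 4 → Fin 5 → ℂ),
      (∀ b, w b 0 ≠ 0) → (∀ j, g j 0 ≠ 0) →
      eval (fun i : Fin 65 => (full E F w g).coeff (i : ℕ)) P0 = 0)
    (F : ι → ℂ) (w : Fin 4 → Fin 4 → ℂ) (g : Fin 4 → Fin 5 → ℂ) :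
    eval (fun i : Fin 65 => (full E F w g).coeff (i : ℕ)) P0 = 0 := by
  let σf := ι ⊕ ((Fin 4 × Fin 4) ⊕ (Fin 4 × Fin 5))
  let Φf : Polynomial (MvPolynomial σf ℂ) :=
    full E (fun m => X (Sum.inl m)) (fun b j => X (Sum.inr (Sum.inl (b, j))))
      (fun j k => X (Sum.inr (Sum.inr (j, k))))
  have hmap : ∀ v : σf → ℂ, Φf.map (eval v) = full E (fun m => v (Sum.inl m))
      (fun b j => v (Sum.inr (Sum.inl (b, j)))) (fun j k => v (Sum.inr (Sum.inr (j, k)))) := by
    intro v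
    rw [full_map]; simp only [eval_X]
  set q : MvPolynomial σf ℂ := aeval (fun i : Fin 65 => Φf.coeff (i : ℕ)) P0 with hq
  have hev : ∀ v : σf → ℂ, eval v q = eval (fun i : Fin 65 => (full E (fun m => v (Sum.inl m))
      (fun b j => v (Sum.inr (Sum.inl (b, j)))) (fun j k => v (Sum.inr (Sum.inr (j, k))))).coeff
        (i : ℕ)) P0 := by
    intro v
    rw [hq, eval_aeval_coeff, hmap]
  set r1 : MvPolynomial σf ℂ := ∏ b : Fin 4, X (Sum.inr (Sum.inl (b, 0))) with hr1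
  set r2 : MvPolynomial σf ℂ := ∏ j : Fin 4, X (Sum.inr (Sum.inr (j, 0))) with hr2
  have hz : q * (r1 * r2) = 0 := by
    apply MvPolynomial.funext
    intro v
    rw [map_zero, map_mul, map_mul]
    by_cases hv : (∀ b : Fin 4, v (Sum.inr (Sum.inl (b, 0))) ≠ 0) ∧
        ∀ j : Fin 4, v (Sum.inr (Sum.inr (j, 0))) ≠ 0
    · rw [hev, hgen _ _ _ hv.1 hv.2, zero_mul]
    · rw [not_and_or] at hv
      rcases hv with h | h
      · push Not at h
        obtain ⟨b, hb⟩ := h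
        have : eval v r1 = 0 := by
          rw [hr1, map_prod]
          exact Finset.prod_eq_zero (Finset.mem_univ b) (by rw [eval_X]; exact hb)
        rw [this, zero_mul, mul_zero]
      · push Not at h
        obtain ⟨b, hb⟩ := h
        have : eval v r2 = 0 := by
          rw [hr2, map_prod]
          exact Finset.prod_eq_zero (Finset.mem_univ b) (by rw [eval_X]; exact hb)
        rw [this, mul_zero, mul_zero]
  have hz2 : q = 0 := by
    rcases mul_eq_zero.mp hz with h | h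
    · exact h
    · exfalso
      revert h
      refine mul_ne_zero ?_ ?_
      · exact Finset.prod_ne_zero_iff.mpr fun b _ => X_ne_zero _
      · exact Finset.prod_ne_zero_iff.mpr fun b _ => X_ne_zero _
  have := hev (Sum.elim F (Sum.elim (fun bj => w bj.1 bj.2) (fun jk => g jk.1 jk.2)))
  rw [hz2, map_zero] at this
  exact this.symm

theorem case2_rel (hι : Fintype.card ι < 37) : ∃ P0 : MvPolynomial (Fin 65) ℂ, P0 ≠ 0 ∧
    ∀ (F : ι → ℂ) (w : Fin 4 → Fin 4 → ℂ) (g : Fin 4 → Fin 5 → ℂ),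
      eval (fun i : Fin 65 => (full E F w g).coeff (i : ℕ)) P0 = 0 := by
  have hσ : Fintype.card (ι ⊕ ((Fin 4 × Fin 3) ⊕ (Fin 4 × Fin 4))) < 65 := by
    simp only [Fintype.card_sum, Fintype.card_prod, Fintype.card_fin]
    omega
  let Φ : Polynomial (MvPolynomial (ι ⊕ ((Fin 4 × Fin 3) ⊕ (Fin 4 × Fin 4))) ℂ) :=
    full E (fun m => X (Sum.inl m))
      (fun b j => Fin.cases (motive := fun _ => MvPolynomial _ ℂ) 1
        (fun j' => X (Sum.inr (Sum.inl (b, j')))) j)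
      (fun j k => Fin.cases (motive := fun _ => MvPolynomial _ ℂ) 1
        (fun k' => X (Sum.inr (Sum.inr (j, k')))) k)
  obtain ⟨P0, hP0, hrel⟩ := exists_rel hσ Φ
  refine ⟨P0, hP0, case2_all E P0 (case2_gen E P0 ?_)⟩
  intro v
  have h := hrel v
  rw [full_map] at h
  have e1 : (fun (b j : Fin 4) => eval v (Fin.cases (motive := fun _ => MvPolynomial _ ℂ) 1
        (fun j' => X (Sum.inr (Sum.inl (b, j')))) j)) =
      (fun b j => Fin.cases (motive := fun _ => ℂ) 1 (fun j' => v (Sum.inr (Sum.inl (b, j')))) j) := by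
    funext b j
    refine Fin.cases ?_ (fun j' => ?_) j
    · simp only [Fin.cases_zero, map_one]
    · simp only [Fin.cases_succ, eval_X]
  have e2 : (fun (j : Fin 4) (k : Fin 5) => eval v (Fin.cases (motive := fun _ => MvPolynomial _ ℂ) 1
        (fun k' => X (Sum.inr (Sum.inr (j, k')))) k)) =
      (fun j k => Fin.cases (motive := fun _ => ℂ) 1 (fun k' => v (Sum.inr (Sum.inr (j, k')))) k) := by
    funext j k
    refine Fin.cases ?_ (fun k' => ?_) k
    · simp only [Fin.cases_zero, map_one]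
    · simp only [Fin.cases_succ, eval_X]
  rw [e1, e2] at h
  simpa only [eval_X] using h

end case2

theorem not_fill_2 (e : Fin 8 → ℕ) (he0 : e 0 = 2) (he7 : e 7 = 1) (he4 : e 4 ≤ 4)
    (he3 : e 3 ≤ 4) : ¬ Fill e := by
  obtain ⟨P0, hP0, hall⟩ := case2_rel (ι := Mon 4 4) (fun m b => m.1 b)
    (by rw [card_Mon]; decide)
  refine not_fill_of e he0 he7 P0 hP0 fun W => ?_
  unfold net
  rw [he0]
  set u3 := (layer (e 2) (W 2) 2 (layer (e 1) (W 1) 2 (layer 2 (W 0) 1 u0)))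
    with hu3
  have hdeg : ∀ b, (u3 b).natDegree ≤ 4 := fun b =>
    layer_deg _ _ 2 _ (fun b _ => layer_deg _ _ 1 _ (fun b _ => layer0_deg _ _) _) _
  have hmem : layer (e 6) (W 6) 2 (layer (e 5) (W 5) 2 (layer (e 4) (W 4) 2
      (layer (e 3) (W 3) 2 u3))) 0 ∈
      Hk (fun i : Fin 4 => (layer (e 3) (W 3) 2 u3) i ^ 2) 4 :=
    layer_Hk _ 2 _ _ _ (fun b _ => layer_Hk _ 1 _ _ _ (fun b _ => layer_Hk1 _ he4 _ _ _) _) _
  obtain ⟨c, hc⟩ := Hk_repr _ _ hmem
  have key : layer (e 6) (W 6) 2 (layer (e 5) (W 5) 2 (layer (e 4) (W 4) 2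
      (layer (e 3) (W 3) 2 u3))) 0 =
      full (fun m b => m.1 b) c (fun b j => if (j : ℕ) < e 3 then W 3 b j else 0)
        (fun j k => (u3 j).coeff k) := by
    have h4 : ∀ i : Fin 4, layer (e 3) (W 3) 2 u3 (i : ℕ) =
        ∑ j : Fin 4, Polynomial.C (if (j : ℕ) < e 3 then W 3 i j else 0) *
          (pol (fun k : Fin 5 => (u3 j).coeff k)) ^ 2 := by
      intro i
      rw [layer_fin (n := 4) _ he3]
      refine Finset.sum_congr rfl fun b _ => ?_
      rw [pol_coeff _ (by have := hdeg b; omega)]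
      rfl
    rw [hc]
    unfold full
    simp only [Polynomial.algebraMap_eq, h4]
  rw [key]
  exact hall _ _ _

end Pool.Agent.T9h64.NW
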