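import Pool.Agent.T9h64.NW.Basic

set_option autoImplicit false
set_option linter.all false

namespace Pool.Agent.T9h64.NW

open MvPolynomial

section ach

variable {A : Type*} [CommRing A] [Algebra ℂ A]

/-- any family in the span of the powers is the value of a layer -/
theorem layer_ach (n : ℕ) (r : ℕ) (h : ℕ → A) (f : ℕ → A)
    (hf : ∀ a, f a ∈ Submodule.span ℂ (Set.range fun b : Fin n => h b ^ r)) :
    ∃ w : ℕ → ℕ → ℂ, layer n w r h = f := by
  have h1 : ∀ a, ∃ c : Fin n → ℂ, ∑ b, c b • h b ^ r = f a := fun a =>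
    (Submodule.mem_span_range_iff_exists_fun ℂ).mp (hf a)
  choose c hc using h1
  refine ⟨fun a b => if hb : b < n then c a ⟨b, hb⟩ else 0, ?_⟩
  funext a
  rw [← hc a]
  unfold layer
  rw [Finset.sum_range]
  refine Finset.sum_congr rfl fun b _ => ?_
  simp only
  rw [dif_pos b.2, Algebra.smul_def]

/-- families in the span of the products `s i * s j` come from families in the span of `s` -/
theorem sq_ach (n : ℕ) (s : Fin n → A) (f : ℕ → A)
    (hf : ∀ a, f a ∈ Submodule.span ℂ (Set.range fun p : Fin n × Fin n => s p.1 * s p.2)) :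
    ∃ (H : ℕ → A) (w : ℕ → ℕ → ℂ), (∀ b, H b ∈ Submodule.span ℂ (Set.range s)) ∧
      layer (n * n) w 2 H = f := by
  let H : ℕ → A := fun b => if hb : b < n * n then
    s (finProdFinEquiv.symm ⟨b, hb⟩).1 + s (finProdFinEquiv.symm ⟨b, hb⟩).2 else 0
  have hHv : ∀ p : Fin n × Fin n, H (finProdFinEquiv p) = s p.1 + s p.2 := by
    intro p
    simp only [H]
    rw [dif_pos (finProdFinEquiv p).2]
    have : (⟨((finProdFinEquiv p : Fin (n * n)) : ℕ), (finProdFinEquiv p).2⟩ : Fin (n * n)) =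
        finProdFinEquiv p := rfl
    rw [this, Equiv.symm_apply_apply]
  have hH : ∀ b, H b ∈ Submodule.span ℂ (Set.range s) := by
    intro b
    simp only [H]
    split_ifs
    · exact Submodule.add_mem _ (Submodule.subset_span ⟨_, rfl⟩) (Submodule.subset_span ⟨_, rfl⟩)
    · exact Submodule.zero_mem _
  have hsq : ∀ p : Fin n × Fin n, (s p.1 + s p.2) ^ 2 ∈
      Submodule.span ℂ (Set.range fun b : Fin (n * n) => H b ^ 2) := by
    intro p
    refine Submodule.subset_span ⟨finProdFinEquiv p, ?_⟩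
    simp only [hHv]
  have hdiag : ∀ i : Fin n, s i ^ 2 ∈
      Submodule.span ℂ (Set.range fun b : Fin (n * n) => H b ^ 2) := by
    intro i
    have h1 := Submodule.smul_mem _ (1 / 4 : ℂ) (hsq (i, i))
    convert h1 using 1
    simp only
    rw [← two_mul, mul_pow, Algebra.smul_def, ← mul_assoc]
    have : algebraMap ℂ A (1 / 4) * 2 ^ 2 = 1 := by
      have h2 : (2 : A) ^ 2 = algebraMap ℂ A 4 := by
        rw [map_ofNat]; norm_num
      rw [h2, ← map_mul]; norm_num
    rw [this, one_mul]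
  have hprod : ∀ p : Fin n × Fin n, s p.1 * s p.2 ∈
      Submodule.span ℂ (Set.range fun b : Fin (n * n) => H b ^ 2) := by
    intro p
    have h1 := Submodule.smul_mem _ (1 / 2 : ℂ)
      (Submodule.sub_mem _ (Submodule.sub_mem _ (hsq p) (hdiag p.1)) (hdiag p.2))
    convert h1 using 1
    have h3 : (s p.1 + s p.2) ^ 2 - s p.1 ^ 2 - s p.2 ^ 2 = 2 * (s p.1 * s p.2) := by ring
    rw [h3, Algebra.smul_def, ← mul_assoc]
    have : algebraMap ℂ A (1 / 2) * 2 = 1 := by
      have h2 : (2 : A) = algebraMap ℂ A 2 := by rw [map_ofNat]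
      rw [h2, ← map_mul]; norm_num
    rw [this, one_mul]
  have hle : Submodule.span ℂ (Set.range fun p : Fin n × Fin n => s p.1 * s p.2) ≤
      Submodule.span ℂ (Set.range fun b : Fin (n * n) => H b ^ 2) := by
    rw [Submodule.span_le]
    rintro _ ⟨p, rfl⟩
    exact hprod p
  obtain ⟨w, hw⟩ := layer_ach (n * n) 2 H f (fun a => hle (hf a))
  exact ⟨H, w, hH, hw⟩

end ach

/-- span of `1, t, ..., t^D` -/
noncomputable def sP (D : ℕ) : Submodule ℂ (Polynomial ℂ) :=
  Submodule.span ℂ (Set.range fun i : Fin (D + 1) => (Polynomial.X : Polynomial ℂ) ^ (i : ℕ))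

theorem sP_of_natDegree {D : ℕ} {p : Polynomial ℂ} (hp : p.natDegree ≤ D) : p ∈ sP D := by
  rw [p.as_sum_range' (D + 1) (by omega)]
  refine Submodule.sum_mem _ fun i hi => ?_
  rw [← Polynomial.C_mul_X_pow_eq_monomial, ← Polynomial.smul_eq_C_mul]
  exact Submodule.smul_mem _ _ (Submodule.subset_span ⟨⟨i, Finset.mem_range.mp hi⟩, rfl⟩)

theorem sP_le (D : ℕ) : sP (D + D) ≤ Submodule.span ℂ (Set.range
    fun p : Fin (D + 1) × Fin (D + 1) =>
      (Polynomial.X : Polynomial ℂ) ^ (p.1 : ℕ) * Polynomial.X ^ (p.2 : ℕ)) := by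
  unfold sP
  rw [Submodule.span_le]
  rintro _ ⟨i, rfl⟩
  refine Submodule.subset_span ⟨(⟨min (i : ℕ) D, by omega⟩, ⟨(i : ℕ) - min (i : ℕ) D, by have := i.2; omega⟩), ?_⟩
  simp only
  rw [← pow_add]
  congr 1
  omega

theorem sP_step (D : ℕ) (f : ℕ → Polynomial ℂ) (hf : ∀ a, f a ∈ sP (D + D)) :
    ∃ (H : ℕ → Polynomial ℂ) (w : ℕ → ℕ → ℂ), (∀ b, H b ∈ sP D) ∧
      layer ((D + 1) * (D + 1)) w 2 H = f :=
  sq_ach (D + 1) (fun i : Fin (D + 1) => (Polynomial.X : Polynomial ℂ) ^ (i : ℕ)) f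
    (fun a => sP_le D (hf a))

/-- big widths -/
def D0 : Fin 8 → ℕ := ![2, 4, 9, 25, 4, 16, 256, 1]

/-- index of quartic products -/
abbrev Q4 := (Fin 4 × Fin 4) × (Fin 4 × Fin 4)

/-- quartic products -/
def qprod {A : Type*} [CommRing A] (y : Fin 4 → A) (q : Q4) : A :=
  (y q.1.1 * y q.1.2) * (y q.2.1 * y q.2.2)

theorem net_ach (g : Fin 4 → Polynomial ℂ) (hg : ∀ k, (g k).natDegree ≤ 8) (f : Polynomial ℂ)
    (hf : f ∈ Submodule.span ℂ (Set.range (qprod (fun k => g k ^ 2)))) :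
    ∃ W : Fin 7 → ℕ → ℕ → ℂ, (∀ a, a ≠ 0 → ∀ b, W 6 a b = 0) ∧ net D0 W u0 0 = f := by
  -- lower part
  let g' : ℕ → Polynomial ℂ := fun b => if hb : b < 4 then g ⟨b, hb⟩ else 0
  have hg' : ∀ b, g' b ∈ sP 8 := by
    intro b
    simp only [g']
    split_ifs
    · exact sP_of_natDegree (hg _)
    · exact Submodule.zero_mem _
  obtain ⟨h3, w3, hh3, hw3⟩ := sP_step 4 g' hg'
  obtain ⟨h2, w2, hh2, hw2⟩ := sP_step 2 h3 hh3
  obtain ⟨h1, w1, hh1, hw1⟩ := sP_step 1 h2 hh2
  obtain ⟨w0, hw0⟩ := layer_ach 2 1 u0 h1 (by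
    intro a
    have h := hh1 a
    unfold sP at h
    have hs : (fun b : Fin 2 => u0 (b : ℕ) ^ 1) =
        fun i : Fin (1 + 1) => (Polynomial.X : Polynomial ℂ) ^ (i : ℕ) := by
      funext b
      fin_cases b <;> simp [u0]
    rw [hs]
    exact h)
  -- upper part
  let y : Fin 4 → Polynomial ℂ := fun k => g k ^ 2
  obtain ⟨h6, w6, hh6, hw6⟩ := sq_ach 16
    (fun i : Fin 16 => y (finProdFinEquiv.symm i : Fin 4 × Fin 4).1 *
      y (finProdFinEquiv.symm i : Fin 4 × Fin 4).2) (fun _ => f) (by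
    intro _
    refine (Submodule.span_le.mpr ?_) hf
    rintro _ ⟨q, rfl⟩
    refine Submodule.subset_span ⟨(finProdFinEquiv q.1, finProdFinEquiv q.2), ?_⟩
    simp only [qprod, Equiv.symm_apply_apply]
    rfl)
  obtain ⟨h5, w5, hh5, hw5⟩ := sq_ach 4 y h6 (by
    intro a
    refine (Submodule.span_le.mpr ?_) (hh6 a)
    rintro _ ⟨i, rfl⟩
    exact Submodule.subset_span ⟨_, rfl⟩)
  obtain ⟨w4, hw4⟩ := layer_ach 4 2 g' h5 (by
    intro a
    have h := hh5 a
    have hs : (fun b : Fin 4 => g' (b : ℕ) ^ 2) = y := by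
      funext b
      simp only [g', y]
      rw [dif_pos b.2]
    rw [hs]
    exact h)
  refine ⟨![w0, w1, w2, w3, w4, w5, fun a b => if a = 0 then w6 0 b else 0], ?_, ?_⟩
  · intro a ha b
    change (if a = 0 then w6 0 b else 0) = 0
    rw [if_neg ha]
  · have e0 : layer 2 w0 1 u0 = h1 := hw0
    have e1 : layer 4 w1 2 h1 = h2 := hw1
    have e2 : layer 9 w2 2 h2 = h3 := hw2
    have e3 : layer 25 w3 2 h3 = g' := hw3
    have e4 : layer 4 w4 2 g' = h5 := hw4
    have e5 : layer 16 w5 2 h5 = h6 := hw5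
    have e6 : layer 256 (fun a b => if a = 0 then w6 0 b else 0) 2 h6 0 = f := by
      have : layer 256 w6 2 h6 0 = f := congrFun hw6 0
      rw [← this]
      unfold layer
      simp
    change layer 256 (fun a b => if a = 0 then w6 0 b else 0) 2 (layer 16 w5 2 (layer 4 w4 2
      (layer 25 w3 2 (layer 9 w2 2 (layer 4 w1 2 (layer 2 w0 1 u0)))))) 0 = f
    rw [e0, e1, e2, e3, e4, e5, e6]

end Pool.Agent.T9h64.NW
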