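import Pool.Agent.T9h64.NW.Sem
import Pool.Agent.T9h64.NW.Pos
import Pool.Agent.T9h64.NW.Neg
import Pool.Agent.T9h64.NW.LowTerm

set_option autoImplicit false
set_option linter.all false

namespace Pool.Agent.T9h64.NW

open Polynomial

/-- the base point -/
noncomputable def gB : Fin 4 → Polynomial ℂ := ![toP g0L, toP g1L, toP g2L, toP g3L]

theorem natDegree_toP_le : ∀ (l : List ℕ), (toP l).natDegree ≤ l.length
  | [] => by simp [toP]
  | a :: l => by
    rw [toP]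
    refine (natDegree_add_le _ _).trans (max_le (by simp) ?_)
    refine (natDegree_mul_le).trans ?_
    have := natDegree_toP_le l
    simp only [List.length_cons]
    have := natDegree_X_le (R := ℂ)
    omega

theorem gB_deg (k : Fin 4) : (gB k).natDegree ≤ 8 := by
  have h1 : ∀ l : List ℕ, l.length ≤ 9 → (toP l).natDegree ≤ 8 := by
    intro l hl
    rw [natDegree_le_iff_coeff_eq_zero]
    intro N hN
    rw [toP_coeff, List.getD_eq_default _ _ (by omega)]
    simp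
  fin_cases k
  · exact h1 g0L (by decide)
  · exact h1 g1L (by decide)
  · exact h1 g2L (by decide)
  · exact h1 g3L (by decide)

/-- tangent space -/
noncomputable def Tan (g : Fin 4 → Polynomial ℂ) : Submodule ℂ (Polynomial ℂ) where
  carrier := {v | ∃ f ∈ Submodule.span ℂ (Set.range (qprod (fun k => g k ^ 2))),
    ∃ γ : Fin 4 → Polynomial ℂ, (∀ k, (γ k).natDegree ≤ 8) ∧
      v = f + γ 0 * (6 * g 0 * (g 0 ^ 2) ^ 2 * g 3 ^ 2) +
        γ 1 * (4 * g 1 * g 1 ^ 2 * g 2 ^ 2 * g 3 ^ 2) +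
        γ 2 * (2 * g 2 * (g 1 ^ 2) ^ 2 * g 3 ^ 2) +
        γ 3 * (2 * g 3 * ((g 1 ^ 2) ^ 2 * g 2 ^ 2 + (g 0 ^ 2) ^ 3))}
  add_mem' := by
    rintro _ _ ⟨f, hf, γ, hγ, rfl⟩ ⟨f', hf', γ', hγ', rfl⟩
    refine ⟨f + f', Submodule.add_mem _ hf hf', fun k => γ k + γ' k, fun k => ?_, by ring⟩
    exact (natDegree_add_le _ _).trans (max_le (hγ k) (hγ' k))
  zero_mem' := ⟨0, Submodule.zero_mem _, fun _ => 0, fun _ => by simp, by simp⟩
  smul_mem' := by
    rintro c _ ⟨f, hf, γ, hγ, rfl⟩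
    refine ⟨c • f, Submodule.smul_mem _ _ hf, fun k => c • γ k, fun k => ?_, ?_⟩
    · exact (natDegree_smul_le _ _).trans (hγ k)
    · simp only [smul_eq_C_mul]; ring

theorem qprod_pow (y : Fin 4 → Polynomial ℂ) (a b c d : ℕ) (h : a + b + c + d = 4) :
    ∃ q : Q4, qprod y q = (y 0 ^ a * y 1 ^ b) * (y 2 ^ c * y 3 ^ d) := by
  have ha : a ≤ 4 := by omega
  have hb : b ≤ 4 := by omega
  have hc : c ≤ 4 := by omega
  obtain rfl : d = 4 - a - b - c := by omega
  interval_cases a <;> interval_cases b <;> interval_cases c <;>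
    first
    | omega
    | exact ⟨((0, 0), (0, 0)), by simp only [qprod]; ring1⟩
    | exact ⟨((0, 0), (0, 1)), by simp only [qprod]; ring1⟩
    | exact ⟨((0, 0), (0, 2)), by simp only [qprod]; ring1⟩
    | exact ⟨((0, 0), (0, 3)), by simp only [qprod]; ring1⟩
    | exact ⟨((0, 0), (1, 1)), by simp only [qprod]; ring1⟩
    | exact ⟨((0, 0), (1, 2)), by simp only [qprod]; ring1⟩
    | exact ⟨((0, 0), (1, 3)), by simp only [qprod]; ring1⟩
    | exact ⟨((0, 0), (2, 2)), by simp only [qprod]; ring1⟩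
    | exact ⟨((0, 0), (2, 3)), by simp only [qprod]; ring1⟩
    | exact ⟨((0, 0), (3, 3)), by simp only [qprod]; ring1⟩
    | exact ⟨((0, 1), (1, 1)), by simp only [qprod]; ring1⟩
    | exact ⟨((0, 1), (1, 2)), by simp only [qprod]; ring1⟩
    | exact ⟨((0, 1), (1, 3)), by simp only [qprod]; ring1⟩
    | exact ⟨((0, 1), (2, 2)), by simp only [qprod]; ring1⟩
    | exact ⟨((0, 1), (2, 3)), by simp only [qprod]; ring1⟩
    | exact ⟨((0, 1), (3, 3)), by simp only [qprod]; ring1⟩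
    | exact ⟨((0, 2), (2, 2)), by simp only [qprod]; ring1⟩
    | exact ⟨((0, 2), (2, 3)), by simp only [qprod]; ring1⟩
    | exact ⟨((0, 2), (3, 3)), by simp only [qprod]; ring1⟩
    | exact ⟨((0, 3), (3, 3)), by simp only [qprod]; ring1⟩
    | exact ⟨((1, 1), (1, 1)), by simp only [qprod]; ring1⟩
    | exact ⟨((1, 1), (1, 2)), by simp only [qprod]; ring1⟩
    | exact ⟨((1, 1), (1, 3)), by simp only [qprod]; ring1⟩
    | exact ⟨((1, 1), (2, 2)), by simp only [qprod]; ring1⟩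
    | exact ⟨((1, 1), (2, 3)), by simp only [qprod]; ring1⟩
    | exact ⟨((1, 1), (3, 3)), by simp only [qprod]; ring1⟩
    | exact ⟨((1, 2), (2, 2)), by simp only [qprod]; ring1⟩
    | exact ⟨((1, 2), (2, 3)), by simp only [qprod]; ring1⟩
    | exact ⟨((1, 2), (3, 3)), by simp only [qprod]; ring1⟩
    | exact ⟨((1, 3), (3, 3)), by simp only [qprod]; ring1⟩
    | exact ⟨((2, 2), (2, 2)), by simp only [qprod]; ring1⟩
    | exact ⟨((2, 2), (2, 3)), by simp only [qprod]; ring1⟩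
    | exact ⟨((2, 2), (3, 3)), by simp only [qprod]; ring1⟩
    | exact ⟨((2, 3), (3, 3)), by simp only [qprod]; ring1⟩
    | exact ⟨((3, 3), (3, 3)), by simp only [qprod]; ring1⟩

theorem monL_mem (a b c d : ℕ) (h : a + b + c + d = 4) : toP (monL a b c d) ∈ Tan gB := by
  obtain ⟨q, hq⟩ := qprod_pow (fun k => gB k ^ 2) a b c d h
  refine ⟨toP (monL a b c d), ?_, fun _ => 0, fun _ => by simp, by simp⟩
  refine Submodule.subset_span ⟨q, ?_⟩
  rw [hq]
  simp only [monL, toP_mulL, toP_powL, y0L, y1L, y2L, y3L, gB]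
  simp only [Matrix.cons_val_zero, Matrix.cons_val_one, Matrix.cons_val]
  ring

theorem exps_sum : ∀ e ∈ exps, e.1 + e.2.1 + e.2.2.1 + e.2.2.2 = 4 := by decide

theorem shift_mem (k : Fin 4) (h : Polynomial ℂ) (c : ℂ) (hc : c ≠ 0)
    (H : Fin 4 → Polynomial ℂ)
    (hH : H = ![6 * gB 0 * (gB 0 ^ 2) ^ 2 * gB 3 ^ 2, 4 * gB 1 * gB 1 ^ 2 * gB 2 ^ 2 * gB 3 ^ 2,
      2 * gB 2 * (gB 1 ^ 2) ^ 2 * gB 3 ^ 2,
      2 * gB 3 * ((gB 1 ^ 2) ^ 2 * gB 2 ^ 2 + (gB 0 ^ 2) ^ 3)])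
    (hh : H k = C c * h) (j : ℕ) (hj : j ≤ 8) : X ^ j * h ∈ Tan gB := by
  refine ⟨0, Submodule.zero_mem _, fun k' => if k' = k then C c⁻¹ * X ^ j else 0, fun k' => ?_, ?_⟩
  · beta_reduce
    split_ifs
    · refine (natDegree_mul_le).trans ?_
      simp only [natDegree_C, natDegree_X_pow]; omega
    · simp
  · have h1 : X ^ j * h = C c⁻¹ * X ^ j * H k := by
      rw [hh]
      have : C c⁻¹ * X ^ j * (C c * h) = (C c⁻¹ * C c) * (X ^ j * h) := by ring
      rw [this, ← C_mul, inv_mul_cancel₀ hc, C_1, one_mul]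
    rw [h1, hH]
    fin_cases k <;> simp

theorem rows_mem : ∀ r ∈ rows, toP r ∈ Tan gB := by
  intro r hr
  simp only [rows, List.mem_append, List.mem_map, List.mem_range] at hr
  rcases hr with ⟨e, he, rfl⟩ | ⟨j, hj, rfl⟩ | ⟨j, hj, rfl⟩ | ⟨j, hj, rfl⟩ | ⟨j, hj, rfl⟩
  · exact monL_mem _ _ _ _ (exps_sum e he)
  · rw [toP_shiftL]
    refine shift_mem 0 _ 6 (by norm_num) _ rfl ?_ j (by omega)
    simp only [h0L, monL, toP_mulL, toP_powL, y0L, y1L, y2L, y3L, gB]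
    simp only [Matrix.cons_val_zero, Matrix.cons_val_one, Matrix.cons_val]
    simp only [map_ofNat]
    ring
  · rw [toP_shiftL]
    refine shift_mem 1 _ 4 (by norm_num) _ rfl ?_ j (by omega)
    simp only [h1L, monL, toP_mulL, toP_powL, y0L, y1L, y2L, y3L, gB]
    simp only [Matrix.cons_val_zero, Matrix.cons_val_one, Matrix.cons_val]
    simp only [map_ofNat]
    ring
  · rw [toP_shiftL]
    refine shift_mem 2 _ 2 (by norm_num) _ rfl ?_ j (by omega)
    simp only [h2L, monL, toP_mulL, toP_powL, y0L, y1L, y2L, y3L, gB]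
    simp only [Matrix.cons_val_zero, Matrix.cons_val_one, Matrix.cons_val]
    simp only [map_ofNat]
    ring
  · rw [toP_shiftL]
    refine shift_mem 3 _ 2 (by norm_num) _ rfl ?_ j (by omega)
    simp only [h3L, monL, toP_mulL, toP_addL, toP_powL, y0L, y1L, y2L, y3L, gB]
    simp only [Matrix.cons_val_zero, Matrix.cons_val_one, Matrix.cons_val]
    simp only [map_ofNat]
    ring

/-! ### the curves -/

/-- `coeff 0` and `coeff 1` of a product in `B[s]` -/
theorem c1_mul {B : Type*} [CommRing B] (p q : Polynomial B) :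
    (p * q).coeff 1 = p.coeff 0 * q.coeff 1 + p.coeff 1 * q.coeff 0 := mul_coeff_one p q

/-- the deformed form -/
noncomputable def Phi {B : Type*} [CommRing B] (Y : Fin 4 → Polynomial B) (c : Q4 → B) :
    Polynomial B :=
  ((Y 1 * Y 1) * (Y 2 * Y 3) + (Y 0 * Y 0) * (Y 0 * Y 3)) + X * ∑ q : Q4, C (c q) * qprod Y q

theorem Phi_eval {B : Type*} [CommRing B] (Y : Fin 4 → Polynomial B) (c : Q4 → B) (s : B) :
    (Phi Y c).eval s = qprod (fun k => (Y k).eval s) ((1, 1), (2, 3)) +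
      qprod (fun k => (Y k).eval s) ((0, 0), (0, 3)) +
      ∑ q : Q4, (s * c q) * qprod (fun k => (Y k).eval s) q := by
  unfold Phi
  rw [eval_add, eval_mul, eval_X, eval_finset_sum, Finset.mul_sum]
  congr 1
  · simp only [eval_add, eval_mul, qprod]
  · refine Finset.sum_congr rfl fun q _ => ?_
    simp only [eval_mul, eval_C, qprod]
    ring

theorem Phi_coeff0 {B : Type*} [CommRing B] (Y : Fin 4 → Polynomial B) (c : Q4 → B) :
    (Phi Y c).coeff 0 = ((Y 1).coeff 0 * (Y 1).coeff 0) * ((Y 2).coeff 0 * (Y 3).coeff 0) +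
      ((Y 0).coeff 0 * (Y 0).coeff 0) * ((Y 0).coeff 0 * (Y 3).coeff 0) := by
  unfold Phi
  rw [coeff_add, mul_coeff_zero (X : Polynomial B), coeff_X_zero, zero_mul, add_zero]
  simp only [coeff_add, mul_coeff_zero]

theorem Phi_coeff1 {B : Type*} [CommRing B] (Y : Fin 4 → Polynomial B) (c : Q4 → B) :
    (Phi Y c).coeff 1 = (((Y 1 * Y 1) * (Y 2 * Y 3) + (Y 0 * Y 0) * (Y 0 * Y 3)).coeff 1) +
      ∑ q : Q4, c q * qprod (fun k => (Y k).coeff 0) q := by
  unfold Phi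
  rw [coeff_add, c1_mul (X : Polynomial B), coeff_X_zero, coeff_X_one, zero_mul, zero_add, one_mul,
    finset_sum_coeff]
  congr 1
  refine Finset.sum_congr rfl fun q _ => ?_
  rw [mul_coeff_zero, coeff_C_zero]
  simp only [qprod, mul_coeff_zero]

theorem fill_D0 : Fill D0 := by
  refine fill_of D0 rfl rfl fun P1 hP1 => ?_
  refine low_term P1 (fun i => ((gB 1 ^ 2 * gB 1 ^ 2) * (gB 2 ^ 2 * gB 3 ^ 2) +
    (gB 0 ^ 2 * gB 0 ^ 2) * (gB 0 ^ 2 * gB 3 ^ 2) : Polynomial ℂ).coeff (i : ℕ)) fun y => ?_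
  obtain ⟨v, ⟨f, hf, γ, hγ, hv⟩, hvy⟩ := exists_mem (Tan gB) rows_mem y
  obtain ⟨c, hc⟩ := (Submodule.mem_span_range_iff_exists_fun ℂ).mp hf
  -- the deformation
  obtain ⟨G, hG⟩ : ∃ G : Fin 4 → Polynomial (Polynomial ℂ), ∀ k, G k = C (gB k) + X * C (γ k) :=
    ⟨_, fun _ => rfl⟩
  have hG0 : ∀ k, (G k).coeff 0 = gB k := by intro k; simp [hG]
  have hG1 : ∀ k, (G k).coeff 1 = γ k := by intro k; simp [hG, coeff_C]
  have hGe : ∀ k (s : Polynomial ℂ), (G k).eval s = gB k + s * γ k := by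
    intro k s; simp only [hG, eval_add, eval_C, eval_mul, eval_X]
  obtain ⟨Y, hY⟩ : ∃ Y : Fin 4 → Polynomial (Polynomial ℂ), ∀ k, Y k = G k ^ 2 :=
    ⟨_, fun _ => rfl⟩
  have hY0 : ∀ k, (Y k).coeff 0 = gB k ^ 2 := by
    intro k; rw [hY, pow_two, mul_coeff_zero, hG0, pow_two]
  have hY1 : ∀ k, (Y k).coeff 1 = 2 * gB k * γ k := by
    intro k; rw [hY, pow_two, c1_mul, hG0, hG1]; ring
  have hYe : ∀ k (s : Polynomial ℂ), (Y k).eval s = (gB k + s * γ k) ^ 2 := by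
    intro k s; rw [hY, eval_pow, hGe]
  obtain ⟨Φ, hΦ⟩ : ∃ Φ : Polynomial (Polynomial ℂ), Φ = Phi Y (fun q => C (c q)) := ⟨_, rfl⟩
  have hΦ0 : Φ.coeff 0 = (gB 1 ^ 2 * gB 1 ^ 2) * (gB 2 ^ 2 * gB 3 ^ 2) +
      (gB 0 ^ 2 * gB 0 ^ 2) * (gB 0 ^ 2 * gB 3 ^ 2) := by
    rw [hΦ, Phi_coeff0]; simp only [hY0]
  have hΦ1 : Φ.coeff 1 = v := by
    rw [hΦ, Phi_coeff1]
    have hX : ∑ q : Q4, C (c q) * qprod (fun k => (Y k).coeff 0) q = f := by
      rw [← hc]
      refine Finset.sum_congr rfl fun q _ => ?_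
      rw [smul_eq_C_mul]
      simp only [hY0]
    rw [hX]
    simp only [coeff_add, c1_mul, mul_coeff_zero, hY0, hY1]
    rw [hv]; ring
  -- evaluation at a parameter
  have hev : ∀ σ : ℂ, ∃ W : Fin 7 → ℕ → ℕ → ℂ, (∀ a, a ≠ 0 → ∀ b, W 6 a b = 0) ∧
      net D0 W u0 0 = Φ.eval (C σ) := by
    intro σ
    refine net_ach (fun k => gB k + C σ * γ k) (fun k => ?_) _ ?_
    · refine (natDegree_add_le _ _).trans (max_le (gB_deg k) ?_)
      refine (natDegree_mul_le).trans ?_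
      simp only [natDegree_C, zero_add]
      exact hγ k
    · rw [hΦ, Phi_eval]
      simp only [hYe]
      refine Submodule.add_mem _ (Submodule.add_mem _ (Submodule.subset_span ⟨_, rfl⟩)
        (Submodule.subset_span ⟨_, rfl⟩)) (Submodule.sum_mem _ fun q _ => ?_)
      rw [← C_mul, ← smul_eq_C_mul]
      exact Submodule.smul_mem _ _ (Submodule.subset_span ⟨q, rfl⟩)
  -- the coefficient polynomials
  obtain ⟨p, hp⟩ : ∃ p : Fin 65 → Polynomial ℂ, ∀ i, p i =
    ∑ k ∈ Finset.range (Φ.natDegree + 2), monomial k ((Φ.coeff k).coeff (i : ℕ)) :=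
    ⟨_, fun _ => rfl⟩
  have hpc : ∀ (i : Fin 65) (k : ℕ), k < Φ.natDegree + 2 → (p i).coeff k = (Φ.coeff k).coeff (i : ℕ) := by
    intro i k hk
    simp only [hp, finset_sum_coeff, coeff_monomial]
    rw [Finset.sum_eq_single k]
    · simp
    · intro b _ hb; rw [if_neg hb]
    · intro h; exact absurd (Finset.mem_range.mpr hk) h
  have hpe : ∀ (i : Fin 65) (σ : ℂ), (p i).eval σ = (Φ.eval (C σ)).coeff (i : ℕ) := by
    intro i σ
    rw [eval_eq_sum_range' (p := Φ) (n := Φ.natDegree + 2) (by omega), finset_sum_coeff]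
    simp only [hp, eval_finset_sum, eval_monomial]
    refine Finset.sum_congr rfl fun k _ => ?_
    rw [← C_pow, coeff_mul_C]
  refine ⟨p, fun i => ?_, fun i => ?_, ?_⟩
  · rw [hpc i 0 (by omega), hΦ0]
  · rw [hpc i 1 (by omega), hΦ1, hvy i]
  · apply Polynomial.funext
    intro σ
    rw [eval_zero]
    obtain ⟨W, hW, hnet⟩ := hev σ
    have h1 := hP1 W hW
    rw [hnet] at h1
    rw [← h1]
    have h2 : (Polynomial.evalRingHom σ).comp (MvPolynomial.aeval p :
        MvPolynomial (Fin 65) ℂ →ₐ[ℂ] _).toRingHom =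
        MvPolynomial.eval (fun i : Fin 65 => (Φ.eval (C σ)).coeff (i : ℕ)) := by
      apply MvPolynomial.ringHom_ext
      · intro r; simp
      · intro i; simp [hpe]
    exact congrArg (fun f => f P1) h2

end Pool.Agent.T9h64.NW
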