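import Mathlib

set_option autoImplicit false

namespace Pool.Agent.T9h64.NW

open MvPolynomial

/-- One layer of a polynomial network with values in a commutative algebra. -/
noncomputable def layer {A : Type*} [CommRing A] [Algebra ℂ A]
    (n : ℕ) (w : ℕ → ℕ → ℂ) (r : ℕ) (h : ℕ → A) (a : ℕ) : A :=
  ∑ b ∈ Finset.range n, algebraMap ℂ A (w a b) * h b ^ r

/-- The depth 7 network with square activations. -/
noncomputable def net {A : Type*} [CommRing A] [Algebra ℂ A]
    (e : Fin 8 → ℕ) (W : Fin 7 → ℕ → ℕ → ℂ) (h : ℕ → A) : ℕ → A :=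
  layer (e 6) (W 6) 2 (layer (e 5) (W 5) 2 (layer (e 4) (W 4) 2 (layer (e 3) (W 3) 2
    (layer (e 2) (W 2) 2 (layer (e 1) (W 1) 2 (layer (e 0) (W 0) 1 h))))))

theorem foldl_eq_net (e : Fin 8 → ℕ) (W : Fin 7 → ℕ → ℕ → ℂ) :
    ((List.finRange 7).foldl
      (fun (h : ℕ → MvPolynomial ℕ ℂ) (k : Fin 7) (a : ℕ) =>
        ∑ b ∈ Finset.range (e k.castSucc),
          MvPolynomial.C (W k a b) * h b ^ (if (k : ℕ) = 0 then 1 else 2))
      (fun b : ℕ => (MvPolynomial.X b : MvPolynomial ℕ ℂ))) =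
    net e W (fun b : ℕ => (MvPolynomial.X b : MvPolynomial ℕ ℂ)) := by
  have h : List.finRange 7 = [0, 1, 2, 3, 4, 5, 6] := by decide
  rw [h]
  rfl

theorem map_layer {A B : Type*} [CommRing A] [Algebra ℂ A] [CommRing B] [Algebra ℂ B]
    (φ : A →ₐ[ℂ] B) (n : ℕ) (w : ℕ → ℕ → ℂ) (r : ℕ) (h : ℕ → A) :
    (fun a => φ (layer n w r h a)) = layer n w r (fun b => φ (h b)) := by
  funext a
  simp [layer, map_sum, map_mul, map_pow]

theorem map_net {A B : Type*} [CommRing A] [Algebra ℂ A] [CommRing B] [Algebra ℂ B]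
    (φ : A →ₐ[ℂ] B) (e : Fin 8 → ℕ) (W : Fin 7 → ℕ → ℕ → ℂ) (h : ℕ → A) (a : ℕ) :
    φ (net e W h a) = net e W (fun b => φ (h b)) a := by
  have : (fun a => φ (net e W h a)) = net e W (fun b => φ (h b)) := by
    simp only [net, map_layer]
  exact congrFun this a

/-! ### binary forms -/

/-- exponent vector `(D - i, i)` -/
noncomputable def bexp (D i : ℕ) : ℕ →₀ ℕ := Finsupp.single 0 (D - i) + Finsupp.single 1 i

/-- binary forms of degree `D` in the variables `X 0`, `X 1` -/
noncomputable def Bin (D : ℕ) : Submodule ℂ (MvPolynomial ℕ ℂ) :=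
  Submodule.span ℂ (Set.range fun i : Fin (D + 1) => monomial (bexp D i) (1 : ℂ))

/-- dehomogenisation `X 0 ↦ 1`, `X 1 ↦ t`, others to `0` -/
noncomputable def dh : MvPolynomial ℕ ℂ →ₐ[ℂ] Polynomial ℂ :=
  MvPolynomial.aeval (fun b => if b = 0 then 1 else if b = 1 then Polynomial.X else 0)

theorem dh_bexp (D i : ℕ) : dh (monomial (bexp D i) (1 : ℂ)) = Polynomial.X ^ i := by
  have : (monomial (bexp D i) (1 : ℂ)) = X 0 ^ (D - i) * X 1 ^ i := by
    simp [bexp, X_pow_eq_monomial, monomial_mul]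
  rw [this]
  simp [dh]

theorem bexp_one (D i : ℕ) : bexp D i 1 = i := by simp [bexp]

theorem bexp_zero (D i : ℕ) : bexp D i 0 = D - i := by simp [bexp]

theorem bexp_inj (D : ℕ) {i j : ℕ} (h : bexp D i = bexp D j) : i = j := by
  have := congrArg (fun f => f 1) h
  simpa [bexp_one] using this

theorem coeff_bexp {D : ℕ} {q : MvPolynomial ℕ ℂ} (hq : q ∈ Bin D) (i : ℕ) (hi : i ≤ D) :
    coeff (bexp D i) q = (dh q).coeff i := by
  refine Submodule.span_induction (p := fun q _ => coeff (bexp D i) q = (dh q).coeff i)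
    ?_ ?_ ?_ ?_ hq
  · rintro _ ⟨j, rfl⟩
    simp only [dh_bexp, coeff_monomial, Polynomial.coeff_X_pow]
    by_cases h : (j : ℕ) = i
    · simp [h]
    · rw [if_neg, if_neg (fun h' => h h'.symm)]
      intro h'
      exact h (bexp_inj D h')
  · simp
  · intro x y _ _ hx hy
    simp [hx, hy]
  · intro a x _ hx
    simp [hx]

theorem coeff_eq_zero {D : ℕ} {q : MvPolynomial ℕ ℂ} (hq : q ∈ Bin D) (m : ℕ →₀ ℕ)
    (hm : ∀ i ≤ D, m ≠ bexp D i) : coeff m q = 0 := by
  refine Submodule.span_induction (p := fun q _ => coeff m q = 0)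
    ?_ ?_ ?_ ?_ hq
  · rintro _ ⟨j, rfl⟩
    simp only [coeff_monomial]
    rw [if_neg]
    intro h
    exact hm j (by have := j.2; omega) h.symm
  · simp
  · intro x y _ _ hx hy
    simp [hx, hy]
  · intro a x _ hx
    simp [hx]

theorem natDegree_dh {D : ℕ} {q : MvPolynomial ℕ ℂ} (hq : q ∈ Bin D) : (dh q).natDegree ≤ D := by
  refine Submodule.span_induction (p := fun q _ => (dh q).natDegree ≤ D)
    ?_ ?_ ?_ ?_ hq
  · rintro _ ⟨j, rfl⟩
    simp only [dh_bexp]
    rw [Polynomial.natDegree_X_pow]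
    have := j.2; omega
  · simp
  · intro x y _ _ hx hy
    rw [map_add]
    exact (Polynomial.natDegree_add_le _ _).trans (max_le hx hy)
  · intro a x _ hx
    rw [map_smul]
    exact (Polynomial.natDegree_smul_le _ _).trans hx

theorem bexp_add (D E i j : ℕ) (hi : i ≤ D) (hj : j ≤ E) :
    bexp D i + bexp E j = bexp (D + E) (i + j) := by
  ext k
  by_cases h0 : k = 0
  · subst h0; simp [bexp]; omega
  · by_cases h1 : k = 1
    · subst h1; simp [bexp]
    · simp [bexp, h0, h1, Finsupp.single_apply, Ne.symm h0, Ne.symm h1]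

theorem Bin_mul {D E : ℕ} {p q : MvPolynomial ℕ ℂ} (hp : p ∈ Bin D) (hq : q ∈ Bin E) :
    p * q ∈ Bin (D + E) := by
  refine Submodule.span_induction (p := fun p _ => p * q ∈ Bin (D + E)) ?_ ?_ ?_ ?_ hp
  · rintro _ ⟨i, rfl⟩
    refine Submodule.span_induction (p := fun q _ => monomial (bexp D i) (1 : ℂ) * q ∈ Bin (D + E))
      ?_ ?_ ?_ ?_ hq
    · rintro _ ⟨j, rfl⟩
      have hi : (i : ℕ) ≤ D := by have := i.2; omega
      have hj : (j : ℕ) ≤ E := by have := j.2; omega
      simp only [monomial_mul, mul_one]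
      rw [bexp_add D E i j hi hj]
      exact Submodule.subset_span ⟨⟨i + j, by omega⟩, rfl⟩
    · simp
    · intro x y _ _ hx hy
      rw [mul_add]; exact Submodule.add_mem _ hx hy
    · intro a x _ hx
      rw [mul_smul_comm]; exact Submodule.smul_mem _ _ hx
  · simp
  · intro x y _ _ hx hy
    rw [add_mul]; exact Submodule.add_mem _ hx hy
  · intro a x _ hx
    rw [smul_mul_assoc]; exact Submodule.smul_mem _ _ hx

theorem layer_mem {A : Type*} [CommRing A] [Algebra ℂ A] (S : Submodule ℂ A)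
    (n : ℕ) (w : ℕ → ℕ → ℂ) (r : ℕ) (h : ℕ → A) (hh : ∀ b < n, h b ^ r ∈ S) (a : ℕ) :
    layer n w r h a ∈ S := by
  unfold layer
  refine Submodule.sum_mem _ fun b hb => ?_
  rw [← Algebra.smul_def]
  exact Submodule.smul_mem _ _ (hh b (Finset.mem_range.mp hb))

theorem layer_Bin (n : ℕ) (w : ℕ → ℕ → ℂ) (D : ℕ) (h : ℕ → MvPolynomial ℕ ℂ)
    (hh : ∀ b < n, h b ∈ Bin D) (a : ℕ) : layer n w 2 h a ∈ Bin (D + D) := by
  refine layer_mem _ _ _ _ _ (fun b hb => ?_) a
  rw [pow_two]; exact Bin_mul (hh b hb) (hh b hb)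

theorem layer0_Bin (w : ℕ → ℕ → ℂ) (a : ℕ) :
    layer 2 w 1 (fun b : ℕ => (X b : MvPolynomial ℕ ℂ)) a ∈ Bin 1 := by
  refine layer_mem _ _ _ _ _ (fun b hb => ?_) a
  rw [pow_one]
  interval_cases b
  · refine Submodule.subset_span ⟨⟨0, by omega⟩, ?_⟩
    simp [bexp, X]
  · refine Submodule.subset_span ⟨⟨1, by omega⟩, ?_⟩
    simp [bexp, X]

theorem net_Bin (e : Fin 8 → ℕ) (he : e 0 = 2) (W : Fin 7 → ℕ → ℕ → ℂ) (a : ℕ) :
    net e W (fun b : ℕ => (X b : MvPolynomial ℕ ℂ)) a ∈ Bin 64 := by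
  unfold net
  rw [he]
  exact layer_Bin _ _ 32 _ (fun b _ => layer_Bin _ _ 16 _ (fun b _ => layer_Bin _ _ 8 _
    (fun b _ => layer_Bin _ _ 4 _ (fun b _ => layer_Bin _ _ 2 _ (fun b _ => layer_Bin _ _ 1 _
      (fun b _ => layer0_Bin _ _) _) _) _) _) _) _

/-- the starting vector for the dehomogenised network -/
noncomputable def u0 : ℕ → Polynomial ℂ := fun b => if b = 0 then 1 else if b = 1 then Polynomial.X else 0

theorem dh_net (e : Fin 8 → ℕ) (W : Fin 7 → ℕ → ℕ → ℂ) (a : ℕ) :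
    dh (net e W (fun b : ℕ => (X b : MvPolynomial ℕ ℂ)) a) = net e W u0 a := by
  rw [map_net]
  congr 1
  funext b
  simp [dh, u0]

/-- The predicate of the frozen statement, in the case `L = 7`, `r = 2`. -/
def Fill (e : Fin 8 → ℕ) : Prop :=
  ∀ P : MvPolynomial (ℕ × (ℕ →₀ ℕ)) ℂ,
      (∀ W : Fin 7 → ℕ → ℕ → ℂ,
        MvPolynomial.eval (fun p : ℕ × (ℕ →₀ ℕ) => MvPolynomial.coeff p.2
          ((List.finRange 7).foldl
            (fun (h : ℕ → MvPolynomial ℕ ℂ) (k : Fin 7) (a : ℕ) =>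
              ∑ b ∈ Finset.range (e k.castSucc),
                MvPolynomial.C (W k a b) * h b ^ (if (k : ℕ) = 0 then 1 else 2))
            (fun b : ℕ => (MvPolynomial.X b : MvPolynomial ℕ ℂ)) p.1)) P = 0) →
      ∀ c : ℕ × (ℕ →₀ ℕ) → ℂ,
        (∀ p : ℕ × (ℕ →₀ ℕ), c p ≠ 0 →
          p.1 < e (Fin.last 7) ∧ (∑ b ∈ p.2.support, p.2 b) = 2 ^ (7 - 1) ∧
            ∀ b ∈ p.2.support, b < e 0) →
        MvPolynomial.eval c P = 0

theorem bexp_sum (D i : ℕ) (hi : i ≤ D) : (∑ b ∈ (bexp D i).support, (bexp D i) b) = D := by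
  have : (bexp D i).sum (fun _ n => n) = D := by
    rw [bexp, Finsupp.sum_add_index' (fun _ => rfl) (fun _ _ _ => rfl),
      Finsupp.sum_single_index rfl, Finsupp.sum_single_index rfl]
    omega
  simpa [Finsupp.sum] using this

theorem bexp_support (D i b : ℕ) (hb : b ∈ (bexp D i).support) : b < 2 := by
  by_contra h
  rw [Finsupp.mem_support_iff] at hb
  apply hb
  have h0 : ¬ (0 = b) := by omega
  have h1 : ¬ (1 = b) := by omega
  simp [bexp, Finsupp.single_apply, h0, h1]

theorem coeff_net (e : Fin 8 → ℕ) (he : e 0 = 2) (W : Fin 7 → ℕ → ℕ → ℂ) (a i : ℕ) (hi : i ≤ 64) :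
    coeff (bexp 64 i) (net e W (fun b : ℕ => (X b : MvPolynomial ℕ ℂ)) a) =
      (net e W u0 a).coeff i := by
  rw [coeff_bexp (net_Bin e he W a) i hi, dh_net]

/-- a nonzero polynomial relation among the coefficients shows the network is not filling -/
theorem not_fill_of (e : Fin 8 → ℕ) (he0 : e 0 = 2) (he7 : e 7 = 1)
    (P0 : MvPolynomial (Fin 65) ℂ) (hP0 : P0 ≠ 0)
    (h : ∀ W, eval (fun i : Fin 65 => (net e W u0 0).coeff (i : ℕ)) P0 = 0) : ¬ Fill e := by
  intro hF
  apply hP0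
  apply MvPolynomial.funext
  intro y
  rw [map_zero]
  have key := hF (rename (fun i : Fin 65 => ((0 : ℕ), bexp 64 i)) P0) ?_
    (fun p => ∑ i : Fin 65, if p = (0, bexp 64 i) then y i else 0) ?_
  · rw [eval_rename] at key
    have hy : ((fun p : ℕ × (ℕ →₀ ℕ) => ∑ i : Fin 65, if p = (0, bexp 64 i) then y i else 0) ∘
        fun i : Fin 65 => ((0 : ℕ), bexp 64 (i : ℕ))) = y := by
      funext i
      simp only [Function.comp]
      rw [Finset.sum_eq_single i]
      · simp
      · intro j _ hj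
        rw [if_neg]
        intro h'
        apply hj
        have := bexp_inj 64 (Prod.ext_iff.mp h').2
        exact (Fin.ext this).symm
      · simp
    rw [hy] at key
    exact key
  · intro W
    rw [foldl_eq_net, eval_rename]
    have hy : ((fun p : ℕ × (ℕ →₀ ℕ) =>
        coeff p.2 (net e W (fun b : ℕ => (X b : MvPolynomial ℕ ℂ)) p.1)) ∘
        fun i : Fin 65 => ((0 : ℕ), bexp 64 (i : ℕ))) =
        fun i : Fin 65 => (net e W u0 0).coeff (i : ℕ) := by
      funext i
      exact coeff_net e he0 W 0 i (by have := i.2; omega)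
    rw [hy]
    exact h W
  · intro p hp
    obtain ⟨i, _, hi⟩ := Finset.exists_ne_zero_of_sum_ne_zero hp
    have hpi : p = (0, bexp 64 i) := by
      by_contra h'
      exact hi (if_neg h')
    subst hpi
    refine ⟨?_, ?_, ?_⟩
    · change 0 < e 7
      rw [he7]; exact Nat.one_pos
    · exact bexp_sum 64 i (by have := i.2; omega)
    · intro b hb
      rw [he0]
      exact bexp_support _ _ _ hb

/-- reduction of filling to a statement about dehomogenised networks -/
theorem fill_of (e : Fin 8 → ℕ) (he0 : e 0 = 2) (he7 : e 7 = 1)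
    (h : ∀ P1 : MvPolynomial (Fin 65) ℂ,
      (∀ W : Fin 7 → ℕ → ℕ → ℂ, (∀ a, a ≠ 0 → ∀ b, W 6 a b = 0) →
        eval (fun i : Fin 65 => (net e W u0 0).coeff (i : ℕ)) P1 = 0) → P1 = 0) : Fill e := by
  classical
  intro P hP c hc
  -- substitution
  let s : ℕ × (ℕ →₀ ℕ) → MvPolynomial (Fin 65) ℂ := fun p =>
    ∑ i : Fin 65, if p = (0, bexp 64 i) then X i else 0
  have hs : ∀ (y : Fin 65 → ℂ) (p : ℕ × (ℕ →₀ ℕ)), eval y (s p) =
      ∑ i : Fin 65, if p = (0, bexp 64 i) then y i else 0 := by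
    intro y p
    simp only [s, map_sum]
    refine Finset.sum_congr rfl fun i _ => ?_
    split_ifs <;> simp
  have hsy : ∀ (y : Fin 65 → ℂ) (f : ℕ × (ℕ →₀ ℕ) → ℂ),
      (∀ i : Fin 65, f (0, bexp 64 i) = y i) →
      (∀ p, (∀ i : Fin 65, p ≠ (0, bexp 64 i)) → f p = 0) →
      eval y (aeval s P) = eval f P := by
    intro y f hf1 hf2
    have : eval y (aeval s P) = eval (fun p => eval y (s p)) P := by
      rw [← MvPolynomial.coe_aeval_eq_eval, ← MvPolynomial.coe_aeval_eq_eval]
      change (aeval y) ((aeval s) P) = _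
      rw [← AlgHom.comp_apply, MvPolynomial.comp_aeval]
      rfl
    rw [this]
    congr 1
    congr 1
    funext p
    rw [hs]
    by_cases hp : ∃ i : Fin 65, p = (0, bexp 64 i)
    · obtain ⟨i, rfl⟩ := hp
      rw [Finset.sum_eq_single i]
      · simp [hf1]
      · intro j _ hj
        rw [if_neg]
        intro h'
        apply hj
        have := bexp_inj 64 (Prod.ext_iff.mp h').2
        exact (Fin.ext this).symm
      · simp
    · push Not at hp
      rw [hf2 p hp]
      refine Finset.sum_eq_zero fun i _ => if_neg (hp i)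
  have hP1 : aeval s P = 0 := by
    apply h
    intro W hW
    rw [hsy _ (fun p => coeff p.2 (net e W (fun b : ℕ => (X b : MvPolynomial ℕ ℂ)) p.1))]
    · have := hP W
      rw [foldl_eq_net] at this
      exact this
    · intro i
      exact coeff_net e he0 W 0 i (by have := i.2; omega)
    · intro p hp
      by_cases hp1 : p.1 = 0
      · apply coeff_eq_zero (net_Bin e he0 W p.1)
        intro i hi h'
        apply hp ⟨i, by omega⟩
        exact Prod.ext hp1 h'
      · have : net e W (fun b : ℕ => (X b : MvPolynomial ℕ ℂ)) p.1 = 0 := by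
          unfold net
          conv_lhs => unfold layer
          refine Finset.sum_eq_zero fun b _ => ?_
          rw [hW _ hp1]
          simp
        rw [this]; simp
  rw [← hsy (fun i => c (0, bexp 64 i)) c (fun i => rfl), hP1, map_zero]
  intro p hp
  by_contra hcp
  obtain ⟨h1, h2, h3⟩ := hc p hcp
  have h1' : p.1 < 1 := by
    have : p.1 < e 7 := h1
    rwa [he7] at this
  have hp10 : p.1 = 0 := by omega
  rw [he0] at h3
  have hi : p.2 1 ≤ 64 := by
    by_cases hm : 1 ∈ p.2.support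
    · calc p.2 1 ≤ ∑ b ∈ p.2.support, p.2 b := Finset.single_le_sum (f := fun b => p.2 b)
            (fun _ _ => Nat.zero_le _) hm
        _ = 64 := by rw [h2]; norm_num
    · rw [Finsupp.notMem_support_iff] at hm
      omega
  apply hp ⟨p.2 1, by omega⟩
  refine Prod.ext hp10 ?_
  have hsup : p.2.support ⊆ {0, 1} := by
    intro b hb
    have := h3 b hb
    simp; omega
  have hsum : p.2 0 + p.2 1 = 64 := by
    have h4 : ∑ b ∈ ({0, 1} : Finset ℕ), p.2 b = 64 := by
      rw [← Finset.sum_subset hsup, h2]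
      · norm_num
      · intro x _ hx
        exact Finsupp.notMem_support_iff.mp hx
    simpa using h4
  ext k
  by_cases h0 : k = 0
  · subst h0; simp [bexp]; omega
  · by_cases h1 : k = 1
    · subst h1; simp [bexp]
    · have hk : k ∉ p.2.support := by
        intro hk
        have := h3 k hk
        omega
      rw [Finsupp.notMem_support_iff.mp hk]
      simp [bexp, Finsupp.single_apply, Ne.symm h0, Ne.symm h1]

end Pool.Agent.T9h64.NW
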