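import Mathlib

set_option autoImplicit false
set_option linter.all false

namespace Pool.Agent.T9h64.NW

/-! ### polynomials as lists of natural numbers -/

/-- sum of coefficient lists -/
def addL : List ℕ → List ℕ → List ℕ
  | [], m => m
  | a :: l, [] => a :: l
  | a :: l, b :: m => (a + b) :: addL l m

/-- scalar multiple -/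
def smulL (c : ℕ) : List ℕ → List ℕ
  | [] => []
  | a :: l => (c * a) :: smulL c l

/-- product -/
def mulL : List ℕ → List ℕ → List ℕ
  | [], _ => []
  | a :: l, m => addL (smulL a m) (0 :: mulL l m)

/-- power -/
def powL (l : List ℕ) : ℕ → List ℕ
  | 0 => [1]
  | k + 1 => mulL l (powL l k)

/-- linear combination -/
def lincomb : List ℕ → List (List ℕ) → List ℕ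
  | c :: cs, r :: rs => addL (smulL c r) (lincomb cs rs)
  | _, _ => []

def g0L : List ℕ := [1, 0, 1]
def g1L : List ℕ := [0, 0, 0, 0, 0, 0, 0, 1, 1]
def g2L : List ℕ := [0, 1, 0, 0, 1]
def g3L : List ℕ := [1, 0, 0, 0, 0, 0, 0, 0, 1]
def y0L : List ℕ := mulL g0L g0L
def y1L : List ℕ := mulL g1L g1L
def y2L : List ℕ := mulL g2L g2L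
def y3L : List ℕ := mulL g3L g3L

/-- product `y0^a y1^b y2^c y3^d` -/
def monL (a b c d : ℕ) : List ℕ := mulL (mulL (powL y0L a) (powL y1L b)) (mulL (powL y2L c) (powL y3L d))

def h0L : List ℕ := mulL g0L (monL 2 0 0 1)
def h1L : List ℕ := mulL g1L (monL 0 1 1 1)
def h2L : List ℕ := mulL g2L (monL 0 2 0 1)
def h3L : List ℕ := mulL g3L (addL (monL 0 2 1 0) (monL 3 0 0 0))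

/-- multiplication by `t^j` -/
def shiftL : ℕ → List ℕ → List ℕ
  | 0, l => l
  | j + 1, l => 0 :: shiftL j l

/-- the exponents of the quartic monomials in four variables -/
def exps : List (ℕ × ℕ × ℕ × ℕ) :=
  [(0, 0, 0, 4), (0, 0, 1, 3), (0, 0, 2, 2), (0, 0, 3, 1), (0, 0, 4, 0), (0, 1, 0, 3), (0, 1, 1, 2), (0, 1, 2, 1), (0, 1, 3, 0), (0, 2, 0, 2), (0, 2, 1, 1), (0, 2, 2, 0), (0, 3, 0, 1), (0, 3, 1, 0), (0, 4, 0, 0), (1, 0, 0, 3), (1, 0, 1, 2), (1, 0, 2, 1), (1, 0, 3, 0), (1, 1, 0, 2), (1, 1, 1, 1), (1, 1, 2, 0), (1, 2, 0, 1), (1, 2, 1, 0), (1, 3, 0, 0), (2, 0, 0, 2), (2, 0, 1, 1), (2, 0, 2, 0), (2, 1, 0, 1), (2, 1, 1, 0), (2, 2, 0, 0), (3, 0,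 0, 1), (3, 0, 1, 0), (3, 1, 0, 0), (4, 0, 0, 0)]

/-- the spanning family of the tangent space -/
def rows : List (List ℕ) :=
  exps.map (fun e => monL e.1 e.2.1 e.2.2.1 e.2.2.2) ++
    ((List.range 9).map (fun j => shiftL j h0L) ++ ((List.range 9).map (fun j => shiftL j h1L) ++
      ((List.range 9).map (fun j => shiftL j h2L) ++ (List.range 9).map (fun j => shiftL j h3L))))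

/-- the certificate: an inverse modulo 7 -/
def cert : List (List ℕ) :=
  [[0, 5, 4, 5, 1, 0, 2, 3, 1, 0, 0, 3, 0, 4, 0, 4, 1, 4, 3, 5, 1, 3, 2, 4, 1, 4, 2, 2, 2, 0, 6, 0, 6, 5, 1, 5, 3, 3, 2, 6, 4, 3, 3, 3, 1, 5, 1, 0, 0, 1, 4, 6, 3, 0, 1, 0, 3, 0, 0, 0, 0, 0, 1, 4, 4, 1, 2, 2, 2, 3, 0],
   [3, 3, 2, 6, 3, 2, 0, 0, 3, 4, 0, 5, 2, 2, 3, 0, 3, 5, 3, 6, 2, 1, 3, 4, 3, 0, 0, 4, 6, 3, 3, 0, 1, 3, 1, 1, 0, 0, 5, 2, 4, 6, 3, 4, 2, 5, 1, 1, 0, 1, 0, 6, 2, 0, 4, 0, 0, 0, 4, 0, 5, 1, 2, 1, 3, 3, 1, 1, 5, 5, 0],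
   [1, 0, 1, 6, 1, 3, 5, 4, 4, 6, 0, 3, 3, 0, 1, 4, 4, 6, 3, 4, 4, 5, 2, 5, 0, 3, 6, 5, 0, 3, 2, 0, 2, 5, 3, 5, 4, 2, 3, 5, 0, 4, 1, 0, 2, 6, 1, 5, 6, 3, 3, 1, 2, 0, 6, 0, 1, 0, 6, 0, 4, 5, 5, 3, 0, 1, 6, 3, 6, 1, 0],
   [2, 6, 1, 2, 6, 6, 2, 5, 1, 5, 0, 1, 6, 5, 2, 4, 0, 0, 4, 2, 0, 0, 0, 0, 0, 3, 6, 0, 3, 4, 5, 0, 6, 5, 4, 5, 0, 6, 0, 0, 6, 3, 5, 1, 2, 0, 3, 1, 6, 3, 1, 2, 1, 0, 2, 0, 4, 0, 5, 0, 1, 3, 3, 0, 0, 1, 2, 1, 0, 2, 0],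
   [0, 1, 4, 1, 1, 0, 6, 3, 6, 0, 0, 4, 0, 5, 0, 0, 1, 6, 6, 5, 1, 6, 5, 5, 5, 6, 5, 1, 0, 6, 3, 0, 5, 4, 2, 2, 2, 1, 3, 0, 4, 5, 2, 6, 1, 0, 3, 0, 0, 0, 3, 0, 2, 0, 6, 0, 4, 0, 0, 0, 0, 0, 4, 5, 4, 6, 3, 1, 4, 4, 0],
   [1, 5, 0, 4, 2, 3, 2, 3, 6, 6, 0, 6, 3, 6, 1, 6, 2, 4, 5, 3, 6, 6, 1, 0, 3, 5, 2, 4, 4, 6, 1, 0, 4, 6, 5, 5, 0, 2, 0, 4, 2, 1, 5, 5, 3, 3, 1, 0, 3, 1, 0, 5, 1, 0, 6, 0, 5, 0, 6, 0, 4, 5, 6, 0, 6, 0, 3, 1, 2, 1, 0],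
   [5, 6, 1, 5, 6, 1, 4, 6, 1, 2, 0, 1, 1, 4, 5, 0, 6, 2, 4, 3, 3, 0, 2, 2, 6, 5, 1, 3, 1, 2, 6, 0, 4, 0, 2, 1, 3, 1, 1, 3, 2, 4, 2, 4, 1, 0, 1, 3, 6, 0, 4, 0, 0, 0, 6, 0, 3, 0, 2, 0, 6, 4, 1, 4, 5, 2, 1, 4, 3, 4, 0],
   [2, 4, 3, 3, 4, 6, 2, 3, 1, 5, 0, 5, 6, 1, 2, 5, 4, 2, 4, 0, 1, 3, 1, 5, 5, 0, 2, 0, 5, 5, 4, 0, 1, 4, 1, 0, 0, 6, 1, 1, 1, 6, 1, 4, 6, 0, 6, 1, 3, 3, 5, 1, 0, 0, 3, 0, 1, 0, 5, 0, 1, 3, 6, 0, 6, 6, 0, 6, 6, 5, 0],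
   [4, 2, 3, 5, 5, 5, 4, 3, 6, 3, 0, 5, 5, 2, 4, 3, 4, 1, 3, 0, 1, 6, 2, 5, 5, 5, 4, 0, 1, 1, 1, 0, 3, 4, 4, 1, 1, 3, 6, 0, 3, 1, 0, 6, 3, 6, 4, 6, 1, 1, 4, 4, 6, 0, 2, 0, 1, 0, 3, 0, 2, 6, 4, 6, 2, 2, 6, 4, 4, 5, 0],
   [0, 1, 6, 2, 0, 0, 2, 5, 4, 0, 0, 0, 0, 0, 0, 6, 5, 5, 0, 6, 2, 5, 2, 5, 6, 5, 6, 2, 4, 0, 4, 0, 0, 2, 6, 3, 5, 5, 1, 3, 1, 0, 1, 0, 6, 5, 3, 6, 5, 3, 5, 2, 4, 0, 5, 0, 3, 0, 0, 0, 0, 0, 1, 2, 1, 4, 6, 6, 5, 0, 0],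
   [1, 4, 0, 1, 6, 3, 1, 0, 2, 6, 0, 5, 3, 0, 1, 2, 1, 4, 3, 1, 0, 1, 0, 0, 0, 6, 2, 2, 3, 5, 2, 0, 4, 5, 3, 6, 1, 1, 5, 2, 5, 0, 6, 6, 4, 4, 5, 4, 1, 6, 5, 5, 2, 0, 0, 0, 6, 0, 6, 0, 4, 5, 3, 6, 0, 3, 6, 5, 1, 0, 0],
   [5, 3, 1, 1, 6, 1, 5, 5, 0, 2, 0, 0, 1, 3, 5, 4, 2, 4, 3, 4, 5, 5, 1, 5, 1, 2, 3, 2, 5, 1, 4, 0, 3, 0, 2, 3, 4, 3, 3, 1, 6, 4, 3, 1, 3, 1, 6, 4, 4, 6, 3, 0, 3, 0, 0, 0, 4, 0, 2, 0, 6, 4, 5, 3, 0, 1, 4, 6, 1, 5, 0],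
   [6, 2, 3, 5, 6, 4, 3, 0, 5, 1, 0, 4, 4, 0, 6, 3, 5, 6, 2, 2, 3, 2, 0, 3, 2, 0, 0, 3, 6, 1, 2, 0, 1, 3, 0, 6, 2, 2, 0, 2, 4, 3, 0, 3, 0, 1, 6, 3, 2, 2, 4, 2, 2, 0, 4, 0, 1, 0, 1, 0, 3, 2, 6, 5, 2, 2, 5, 6, 5, 1, 0],
   [4, 6, 3, 3, 4, 5, 1, 4, 3, 3, 0, 1, 5, 3, 4, 3, 0, 6, 2, 5, 5, 0, 4, 2, 3, 4, 1, 4, 5, 5, 0, 0, 6, 2, 5, 3, 6, 3, 1, 6, 6, 2, 0, 4, 3, 3, 2, 3, 4, 4, 5, 6, 4, 0, 0, 0, 3, 0, 3, 0, 2, 6, 2, 1, 0, 5, 0, 5, 3, 0, 0],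
   [6, 4, 6, 3, 3, 4, 3, 2, 0, 1, 0, 6, 4, 4, 6, 6, 6, 2, 4, 6, 2, 6, 6, 0, 6, 1, 3, 6, 5, 4, 6, 0, 5, 4, 6, 2, 1, 5, 0, 6, 0, 6, 0, 6, 5, 5, 3, 4, 3, 0, 4, 4, 3, 0, 4, 0, 4, 0, 1, 0, 3, 2, 0, 6, 1, 1, 3, 5, 3, 4, 0],
   [5, 1, 3, 5, 3, 1, 4, 2, 5, 2, 0, 2, 1, 2, 5, 3, 2, 1, 2, 0, 6, 1, 2, 6, 3, 1, 1, 2, 0, 1, 2, 0, 2, 6, 0, 4, 1, 6, 6, 2, 2, 1, 3, 3, 1, 1, 2, 5, 3, 3, 2, 2, 0, 0, 3, 0, 1, 0, 2, 0, 6, 4, 1, 6, 1, 2, 5, 5, 3, 2, 0],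
   [0, 5, 3, 0, 2, 0, 4, 5, 2, 0, 0, 2, 0, 6, 0, 0, 3, 2, 4, 6, 0, 0, 4, 5, 0, 6, 3, 1, 0, 0, 0, 0, 1, 0, 5, 2, 6, 4, 2, 4, 3, 1, 3, 5, 6, 5, 2, 5, 5, 3, 3, 3, 6, 0, 3, 0, 6, 0, 0, 0, 0, 0, 1, 1, 2, 4, 3, 4, 3, 6, 0],
   [6, 5, 1, 4, 2, 4, 1, 0, 3, 1, 0, 1, 4, 4, 6, 0, 1, 5, 4, 0, 4, 1, 0, 6, 2, 5, 4, 5, 2, 1, 0, 0, 2, 6, 1, 0, 4, 3, 4, 6, 4, 2, 5, 6, 5, 5, 1, 0, 4, 1, 6, 0, 4, 0, 6, 0, 2, 0, 1, 0, 3, 2, 2, 3, 1, 0, 5, 0, 6, 4, 0],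
   [1, 2, 4, 2, 4, 3, 6, 2, 3, 6, 0, 4, 3, 6, 1, 2, 3, 6, 0, 4, 5, 5, 3, 3, 0, 0, 1, 5, 3, 0, 2, 0, 4, 1, 3, 4, 1, 0, 1, 1, 0, 2, 1, 1, 4, 5, 3, 4, 6, 5, 4, 5, 0, 0, 3, 0, 3, 0, 6, 0, 4, 5, 4, 6, 2, 0, 4, 1, 3, 5, 0],
   [5, 3, 4, 1, 2, 1, 6, 1, 2, 2, 0, 5, 1, 5, 5, 6, 0, 2, 4, 6, 6, 6, 5, 4, 1, 6, 2, 4, 6, 5, 4, 0, 0, 0, 5, 5, 1, 6, 3, 5, 4, 6, 4, 6, 0, 0, 5, 2, 3, 0, 2, 3, 0, 0, 0, 0, 6, 0, 2, 0, 6, 4, 1, 6, 1, 5, 2, 2, 3, 2, 0],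
   [4, 2, 4, 5, 6, 5, 2, 0, 3, 3, 0, 0, 5, 1, 4, 6, 5, 4, 5, 4, 3, 0, 1, 2, 3, 2, 3, 3, 6, 5, 0, 0, 5, 2, 2, 4, 5, 5, 6, 1, 5, 3, 3, 5, 3, 1, 2, 0, 5, 5, 6, 2, 2, 0, 0, 0, 4, 0, 3, 0, 2, 6, 3, 2, 4, 6, 1, 1, 4, 5, 0],
   [0, 0, 5, 6, 3, 0, 0, 5, 6, 0, 0, 2, 0, 6, 0, 5, 3, 2, 4, 6, 0, 6, 1, 4, 5, 5, 1, 5, 6, 4, 5, 0, 5, 1, 2, 2, 0, 0, 6, 5, 2, 0, 0, 4, 6, 3, 5, 0, 2, 4, 6, 5, 1, 0, 5, 0, 1, 0, 0, 0, 0, 0, 0, 0, 5, 1, 5, 0, 6, 4, 0],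
   [3, 2, 1, 5, 2, 2, 6, 5, 0, 4, 0, 4, 2, 4, 3, 1, 2, 4, 2, 4, 2, 3, 0, 1, 4, 0, 3, 4, 0, 1, 5, 0, 3, 0, 5, 3, 4, 1, 2, 3, 6, 1, 6, 5, 6, 4, 2, 6, 2, 3, 3, 4, 2, 0, 5, 0, 0, 0, 4, 0, 5, 1, 2, 3, 4, 2, 4, 0, 4, 4, 0],
   [1, 6, 0, 3, 0, 3, 3, 1, 3, 6, 0, 4, 3, 5, 1, 4, 2, 2, 5, 1, 2, 5, 1, 2, 2, 3, 0, 3, 6, 1, 1, 0, 2, 1, 4, 0, 3, 0, 6, 5, 5, 2, 2, 3, 1, 4, 2, 5, 3, 2, 6, 3, 0, 0, 3, 0, 3, 0, 6, 0, 4, 5, 2, 4, 3, 4, 2, 6, 4, 5, 0],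
   [3, 6, 6, 0, 4, 2, 4, 1, 6, 4, 0, 5, 2, 6, 3, 3, 0, 1, 3, 3, 2, 0, 3, 3, 4, 6, 6, 4, 2, 3, 6, 0, 5, 4, 6, 2, 6, 3, 5, 4, 4, 5, 6, 6, 5, 4, 2, 5, 2, 5, 3, 1, 5, 0, 1, 0, 2, 0, 4, 0, 5, 1, 1, 1, 5, 1, 1, 3, 4, 2, 0],
   [1, 0, 1, 6, 3, 3, 4, 3, 3, 6, 0, 3, 3, 5, 1, 0, 5, 3, 2, 4, 5, 1, 5, 0, 0, 0, 5, 2, 2, 1, 6, 0, 1, 1, 0, 5, 0, 4, 1, 5, 2, 0, 0, 5, 3, 1, 2, 5, 3, 1, 6, 0, 5, 0, 2, 0, 6, 0, 6, 0, 4, 5, 1, 0, 3, 6, 4, 5, 4, 2, 0],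
   [1, 0, 5, 5, 4, 3, 4, 3, 6, 6, 0, 3, 3, 2, 1, 4, 2, 2, 6, 4, 3, 5, 2, 0, 3, 5, 4, 1, 1, 4, 3, 0, 6, 3, 0, 5, 6, 5, 6, 3, 2, 2, 6, 5, 1, 5, 4, 6, 0, 6, 6, 3, 1, 0, 0, 0, 4, 0, 6, 0, 4, 5, 6, 1, 6, 0, 6, 2, 0, 3, 0],
   [5, 2, 4, 6, 5, 1, 0, 1, 2, 2, 0, 0, 1, 4, 5, 1, 6, 5, 1, 0, 5, 2, 4, 4, 2, 0, 2, 5, 2, 6, 0, 0, 0, 6, 6, 0, 2, 2, 0, 6, 6, 1, 3, 2, 2, 3, 6, 6, 2, 5, 4, 6, 1, 0, 2, 0, 5, 0, 2, 0, 6, 4, 2, 5, 3, 2, 6, 0, 4, 1, 0],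
   [4, 3, 0, 6, 0, 5, 2, 4, 0, 3, 0, 5, 5, 1, 4, 4, 6, 5, 6, 0, 6, 3, 3, 2, 6, 6, 0, 4, 1, 3, 2, 0, 3, 1, 5, 1, 0, 2, 6, 4, 3, 6, 0, 3, 1, 4, 4, 5, 0, 6, 4, 6, 1, 0, 6, 0, 5, 0, 3, 0, 2, 6, 1, 0, 1, 1, 2, 0, 1, 3, 0],
   [1, 1, 2, 4, 3, 3, 2, 5, 5, 6, 0, 3, 3, 5, 1, 2, 6, 5, 6, 4, 0, 1, 5, 2, 2, 5, 5, 0, 0, 3, 1, 0, 5, 6, 2, 2, 6, 0, 3, 5, 5, 4, 5, 2, 3, 4, 3, 1, 4, 5, 5, 3, 6, 0, 5, 0, 0, 0, 6, 0, 4, 5, 2, 1, 5, 3, 3, 0, 3, 6, 0],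
   [1, 6, 0, 0, 1, 3, 6, 2, 6, 6, 0, 6, 3, 2, 1, 3, 6, 3, 0, 3, 5, 1, 5, 0, 3, 0, 6, 4, 5, 6, 4, 0, 4, 4, 5, 5, 1, 3, 1, 0, 3, 0, 3, 6, 5, 0, 3, 2, 0, 2, 3, 6, 0, 0, 6, 0, 6, 0, 6, 0, 4, 5, 0, 6, 2, 0, 0, 2, 4, 4, 0],
   [5, 5, 3, 3, 6, 1, 6, 0, 3, 2, 0, 5, 1, 3, 5, 5, 1, 3, 2, 1, 1, 5, 3, 5, 4, 6, 4, 0, 0, 0, 6, 0, 5, 0, 6, 3, 1, 2, 1, 2, 0, 1, 4, 2, 6, 6, 0, 0, 5, 6, 5, 3, 0, 0, 6, 0, 6, 0, 2, 0, 6, 4, 3, 6, 1, 0, 1, 5, 3, 0, 0],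
   [4, 1, 1, 4, 1, 5, 3, 1, 3, 3, 0, 6, 5, 4, 4, 5, 2, 4, 2, 6, 1, 2, 6, 2, 6, 2, 2, 5, 1, 2, 1, 0, 3, 4, 6, 1, 3, 1, 2, 1, 0, 5, 6, 5, 5, 3, 1, 3, 5, 2, 2, 0, 6, 0, 0, 0, 2, 0, 3, 0, 2, 6, 3, 4, 0, 1, 1, 4, 6, 5, 0],
   [3, 1, 4, 0, 0, 2, 1, 6, 2, 4, 0, 1, 2, 5, 3, 3, 6, 0, 6, 4, 5, 2, 4, 1, 2, 3, 0, 4, 3, 0, 6, 0, 5, 1, 0, 2, 1, 6, 0, 5, 0, 2, 2, 3, 2, 5, 3, 0, 1, 3, 1, 2, 0, 0, 2, 0, 3, 0, 4, 0, 5, 1, 3, 6, 6, 1, 3, 3, 2, 6, 0],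
   [2, 5, 0, 0, 4, 6, 0, 3, 1, 5, 0, 6, 6, 5, 2, 6, 5, 3, 1, 3, 0, 3, 1, 5, 3, 3, 4, 4, 5, 0, 6, 0, 0, 2, 0, 3, 4, 1, 6, 3, 0, 3, 3, 1, 4, 3, 0, 6, 6, 2, 2, 4, 4, 0, 4, 0, 0, 0, 5, 0, 1, 3, 0, 3, 2, 5, 5, 2, 0, 6, 0],
   [2, 6, 5, 0, 0, 6, 5, 3, 3, 5, 0, 5, 6, 0, 2, 4, 4, 5, 5, 6, 6, 0, 4, 4, 1, 3, 3, 2, 2, 0, 6, 0, 5, 5, 6, 6, 0, 5, 0, 0, 5, 2, 1, 2, 2, 3, 2, 6, 2, 1, 0, 0, 3, 0, 5, 0, 3, 0, 5, 0, 1, 3, 0, 0, 5, 0, 4, 1, 0, 2, 0],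
   [3, 1, 6, 5, 5, 2, 1, 3, 2, 4, 0, 3, 2, 0, 3, 2, 0, 6, 5, 6, 5, 3, 4, 3, 5, 2, 5, 4, 2, 3, 6, 0, 3, 4, 0, 1, 4, 5, 5, 1, 4, 5, 0, 0, 3, 1, 1, 4, 6, 1, 5, 3, 5, 0, 1, 0, 3, 0, 4, 0, 5, 1, 6, 3, 3, 6, 5, 0, 6, 6, 0],
   [4, 6, 4, 0, 1, 5, 3, 0, 4, 3, 0, 2, 5, 0, 4, 1, 6, 3, 2, 1, 1, 5, 6, 4, 0, 4, 6, 0, 5, 3, 3, 0, 5, 2, 3, 6, 6, 2, 2, 1, 1, 4, 0, 1, 3, 0, 1, 5, 4, 5, 4, 6, 5, 0, 0, 0, 5, 0, 3, 0, 2, 6, 3, 1, 4, 4, 0, 5, 0, 2, 0],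
   [0, 3, 1, 2, 1, 0, 2, 3, 5, 0, 0, 2, 0, 0, 0, 3, 6, 3, 3, 1, 0, 0, 1, 3, 0, 0, 0, 2, 3, 3, 2, 0, 4, 5, 2, 2, 6, 5, 2, 2, 3, 5, 5, 1, 6, 5, 5, 2, 0, 1, 5, 5, 2, 0, 4, 0, 0, 0, 0, 0, 0, 0, 0, 1, 6, 4, 5, 2, 4, 6, 0],
   [5, 5, 3, 4, 3, 1, 0, 4, 6, 2, 0, 6, 1, 6, 5, 0, 1, 6, 4, 1, 1, 4, 3, 0, 0, 5, 6, 5, 6, 4, 6, 0, 2, 6, 2, 0, 4, 1, 3, 3, 1, 4, 0, 5, 2, 1, 5, 4, 4, 6, 5, 1, 3, 0, 1, 0, 4, 0, 2, 0, 6, 4, 2, 3, 0, 1, 6, 5, 6, 3, 0],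
   [5, 4, 2, 2, 0, 1, 3, 1, 0, 2, 0, 6, 1, 3, 5, 6, 4, 4, 4, 4, 2, 2, 3, 3, 4, 0, 2, 5, 3, 0, 2, 0, 6, 1, 3, 4, 3, 4, 1, 1, 3, 1, 5, 0, 1, 0, 1, 3, 1, 3, 2, 4, 4, 0, 5, 0, 4, 0, 2, 0, 6, 4, 3, 4, 4, 2, 4, 5, 1, 2, 0],
   [6, 6, 0, 0, 3, 4, 2, 2, 3, 1, 0, 6, 4, 6, 6, 5, 3, 5, 3, 6, 3, 6, 4, 0, 1, 2, 1, 3, 2, 5, 4, 0, 1, 5, 5, 6, 3, 5, 2, 1, 1, 0, 6, 1, 6, 5, 1, 4, 6, 6, 0, 1, 0, 0, 3, 0, 2, 0, 1, 0, 3, 2, 4, 4, 5, 1, 0, 4, 2, 1, 0],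
   [1, 5, 5, 4, 3, 3, 5, 2, 0, 6, 0, 4, 3, 3, 1, 5, 2, 0, 3, 4, 5, 4, 0, 3, 6, 0, 4, 5, 3, 0, 2, 0, 6, 2, 1, 4, 4, 3, 4, 6, 3, 2, 2, 3, 6, 0, 5, 1, 6, 1, 0, 3, 1, 0, 2, 0, 2, 0, 6, 0, 4, 5, 3, 3, 1, 0, 6, 5, 1, 4, 0],
   [3, 1, 4, 4, 0, 2, 3, 2, 2, 4, 0, 2, 2, 3, 3, 1, 1, 2, 5, 4, 5, 0, 3, 2, 1, 2, 0, 3, 0, 5, 0, 0, 1, 5, 3, 4, 0, 1, 0, 2, 4, 3, 3, 1, 3, 1, 0, 4, 2, 5, 2, 5, 0, 0, 5, 0, 1, 0, 4, 0, 5, 1, 1, 0, 6, 0, 5, 4, 0, 6, 0],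
   [6, 6, 2, 4, 6, 4, 6, 2, 1, 1, 0, 1, 4, 1, 6, 2, 0, 2, 4, 1, 0, 4, 0, 3, 3, 5, 5, 5, 2, 2, 2, 0, 1, 4, 6, 4, 2, 1, 1, 6, 2, 3, 5, 2, 0, 6, 1, 4, 4, 1, 0, 3, 1, 0, 5, 0, 1, 0, 1, 0, 3, 2, 5, 5, 5, 1, 1, 1, 3, 5, 0],
   [2, 3, 0, 3, 0, 6, 2, 0, 4, 5, 0, 2, 6, 0, 2, 1, 5, 3, 6, 2, 0, 5, 4, 4, 1, 5, 0, 1, 1, 4, 3, 0, 2, 3, 3, 6, 2, 0, 5, 6, 4, 4, 3, 1, 6, 4, 4, 3, 6, 2, 4, 2, 2, 0, 4, 0, 3, 0, 5, 0, 1, 3, 4, 5, 2, 4, 1, 0, 3, 2, 0],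
   [3, 4, 2, 0, 0, 2, 1, 6, 2, 4, 0, 4, 2, 2, 3, 6, 0, 2, 6, 2, 3, 6, 5, 2, 1, 6, 3, 0, 4, 6, 3, 0, 4, 5, 3, 6, 5, 3, 2, 6, 0, 4, 3, 3, 4, 0, 6, 1, 0, 5, 1, 6, 0, 0, 0, 0, 0, 0, 4, 0, 5, 1, 4, 2, 5, 3, 6, 3, 0, 2, 0],
   [2, 2, 6, 1, 1, 6, 5, 6, 0, 5, 0, 6, 6, 4, 2, 1, 0, 4, 4, 0, 1, 5, 4, 1, 6, 0, 5, 2, 2, 6, 0, 0, 3, 6, 5, 6, 2, 3, 4, 5, 4, 4, 1, 3, 5, 5, 3, 4, 6, 0, 4, 0, 3, 0, 2, 0, 5, 0, 5, 0, 1, 3, 0, 5, 6, 5, 1, 6, 4, 4, 0],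
   [0, 3, 5, 5, 1, 0, 2, 0, 2, 0, 0, 4, 0, 5, 0, 3, 0, 1, 1, 0, 2, 2, 1, 0, 4, 4, 5, 1, 5, 4, 6, 0, 0, 5, 3, 0, 6, 0, 3, 0, 3, 3, 4, 5, 4, 1, 4, 6, 1, 5, 0, 0, 4, 0, 5, 0, 1, 0, 0, 0, 0, 0, 4, 1, 6, 3, 4, 6, 4, 2, 0],
   [1, 5, 1, 2, 3, 3, 2, 2, 0, 6, 0, 4, 3, 3, 1, 0, 0, 6, 1, 1, 3, 1, 4, 1, 2, 5, 1, 2, 1, 5, 2, 0, 0, 3, 1, 6, 4, 2, 5, 5, 6, 1, 2, 4, 6, 0, 1, 2, 5, 2, 0, 3, 4, 0, 0, 0, 0, 0, 6, 0, 4, 5, 1, 3, 5, 6, 5, 4, 0, 3, 0],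
   [0, 4, 3, 2, 1, 0, 2, 1, 4, 0, 0, 5, 0, 2, 0, 5, 0, 4, 1, 0, 0, 5, 2, 1, 6, 5, 3, 6, 4, 3, 6, 0, 4, 5, 4, 5, 2, 6, 0, 6, 3, 5, 6, 4, 0, 0, 1, 6, 1, 0, 0, 5, 6, 0, 4, 0, 3, 0, 0, 0, 0, 0, 2, 5, 3, 2, 6, 1, 0, 0, 0],
   [5, 3, 3, 2, 4, 1, 2, 3, 1, 2, 0, 2, 1, 5, 5, 2, 0, 0, 0, 4, 6, 3, 5, 6, 4, 6, 0, 2, 4, 2, 1, 0, 5, 2, 6, 4, 5, 6, 1, 0, 4, 1, 0, 4, 3, 5, 4, 5, 0, 6, 0, 1, 4, 0, 1, 0, 3, 0, 2, 0, 6, 4, 5, 2, 0, 4, 6, 4, 4, 3, 0],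
   [1, 1, 0, 4, 3, 3, 3, 0, 5, 6, 0, 6, 3, 0, 1, 4, 0, 1, 3, 2, 6, 6, 4, 4, 0, 3, 5, 1, 3, 3, 3, 0, 1, 1, 0, 6, 6, 3, 6, 3, 3, 2, 1, 0, 3, 2, 1, 2, 6, 0, 5, 5, 3, 0, 5, 0, 1, 0, 6, 0, 4, 5, 0, 1, 3, 0, 1, 4, 3, 5, 0],
   [0, 1, 3, 5, 1, 0, 6, 4, 4, 0, 0, 5, 0, 4, 0, 0, 5, 5, 6, 3, 1, 2, 5, 3, 3, 6, 4, 0, 6, 6, 1, 0, 4, 4, 1, 5, 5, 5, 2, 4, 2, 3, 6, 3, 2, 4, 0, 2, 0, 5, 0, 4, 3, 0, 2, 0, 0, 0, 0, 0, 0, 0, 2, 2, 3, 3, 3, 2, 4, 0, 0],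
   [4, 6, 6, 5, 1, 5, 4, 5, 5, 3, 0, 0, 5, 6, 4, 3, 0, 2, 6, 3, 1, 3, 6, 4, 4, 0, 4, 1, 4, 4, 0, 0, 3, 0, 4, 1, 0, 5, 0, 6, 3, 2, 0, 0, 2, 2, 6, 4, 1, 2, 2, 4, 5, 0, 2, 0, 0, 0, 3, 0, 2, 6, 2, 0, 4, 0, 6, 6, 6, 6, 0],
   [6, 5, 4, 6, 3, 4, 2, 4, 5, 1, 0, 3, 4, 6, 6, 5, 1, 4, 1, 2, 5, 1, 3, 5, 5, 5, 6, 1, 0, 4, 2, 0, 3, 1, 6, 0, 6, 5, 6, 4, 2, 5, 1, 5, 5, 4, 4, 1, 1, 3, 4, 0, 1, 0, 3, 0, 1, 0, 1, 0, 3, 2, 6, 1, 6, 0, 2, 3, 2, 1, 0],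
   [2, 6, 0, 6, 5, 6, 4, 4, 3, 5, 0, 0, 6, 1, 2, 6, 1, 2, 5, 6, 5, 4, 4, 0, 1, 3, 1, 6, 0, 5, 5, 0, 0, 0, 0, 1, 4, 4, 5, 2, 5, 3, 6, 6, 3, 3, 6, 4, 5, 3, 6, 0, 4, 0, 5, 0, 4, 0, 5, 0, 1, 3, 2, 3, 3, 6, 1, 1, 5, 1, 0],
   [3, 1, 1, 2, 0, 2, 5, 1, 5, 4, 0, 4, 2, 2, 3, 6, 0, 4, 1, 5, 5, 6, 4, 4, 0, 1, 0, 0, 1, 5, 6, 0, 5, 1, 2, 5, 4, 4, 6, 5, 1, 0, 3, 0, 5, 0, 6, 0, 1, 4, 5, 3, 2, 0, 2, 0, 4, 0, 5, 0, 5, 1, 4, 3, 0, 5, 0, 3, 2, 2, 0],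
   [6, 6, 0, 6, 2, 4, 4, 5, 3, 1, 0, 2, 4, 3, 6, 6, 1, 1, 5, 3, 0, 2, 3, 1, 3, 3, 3, 3, 3, 5, 2, 0, 4, 4, 3, 3, 0, 0, 6, 0, 3, 1, 5, 4, 4, 6, 0, 3, 3, 2, 1, 5, 4, 0, 4, 0, 1, 0, 4, 1, 3, 2, 0, 0, 0, 1, 2, 3, 2, 5, 0],
   [4, 1, 5, 4, 5, 5, 1, 3, 0, 3, 0, 1, 5, 0, 4, 3, 3, 5, 4, 0, 3, 1, 3, 3, 3, 4, 6, 2, 4, 2, 6, 0, 5, 2, 2, 4, 2, 0, 6, 2, 4, 4, 0, 4, 2, 3, 2, 6, 1, 3, 0, 4, 5, 0, 4, 0, 5, 0, 6, 3, 3, 6, 4, 5, 1, 3, 3, 5, 6, 5, 0],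
   [4, 6, 3, 3, 1, 5, 1, 0, 2, 3, 0, 2, 5, 3, 4, 4, 2, 3, 5, 5, 4, 0, 3, 5, 1, 4, 6, 6, 1, 1, 1, 0, 4, 1, 4, 6, 5, 2, 4, 4, 0, 6, 4, 0, 1, 5, 3, 6, 2, 2, 6, 4, 1, 0, 0, 0, 1, 0, 3, 3, 5, 0, 6, 2, 5, 1, 1, 5, 3, 5, 0],
   [4, 6, 6, 3, 4, 4, 2, 6, 0, 6, 0, 6, 2, 6, 5, 3, 4, 2, 2, 3, 6, 1, 4, 2, 0, 5, 1, 1, 5, 3, 5, 0, 0, 1, 3, 0, 6, 6, 2, 1, 1, 6, 6, 3, 2, 0, 5, 0, 3, 5, 2, 4, 5, 0, 0, 0, 4, 0, 2, 1, 6, 6, 6, 1, 2, 4, 2, 1, 4, 1, 0],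
   [1, 0, 5, 2, 3, 1, 6, 5, 1, 0, 0, 3, 0, 5, 5, 3, 1, 1, 4, 1, 5, 0, 1, 1, 1, 5, 0, 5, 4, 5, 5, 0, 6, 1, 0, 4, 6, 2, 1, 6, 5, 0, 1, 2, 2, 4, 0, 3, 5, 6, 3, 0, 4, 0, 2, 0, 5, 0, 2, 0, 0, 0, 1, 1, 2, 5, 3, 4, 4, 1, 0],
   [0, 6, 6, 1, 6, 3, 1, 5, 2, 6, 0, 4, 3, 4, 2, 1, 5, 1, 5, 0, 4, 3, 0, 5, 6, 1, 6, 2, 2, 3, 1, 0, 4, 1, 3, 1, 0, 2, 2, 1, 6, 4, 0, 2, 6, 4, 6, 6, 0, 5, 3, 0, 0, 0, 1, 0, 0, 0, 5, 0, 4, 5, 1, 0, 6, 5, 1, 3, 4, 6, 0],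
   [2, 1, 0, 5, 3, 3, 4, 4, 4, 6, 0, 6, 3, 0, 1, 1, 1, 0, 3, 3, 0, 1, 6, 5, 0, 2, 0, 6, 4, 1, 2, 0, 5, 5, 2, 0, 6, 4, 1, 6, 2, 0, 5, 6, 0, 0, 3, 4, 1, 2, 0, 4, 1, 0, 6, 0, 6, 0, 6, 0, 4, 5, 0, 1, 5, 5, 5, 0, 3, 5, 0]]

/-- coefficients modulo 7 -/
def modL : List ℕ → List ℕ
  | [] => []
  | a :: l => (a % 7) :: modL l

/-- drop trailing zeros after reduction -/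
def isUnit7 : ℕ → List ℕ → Bool
  | _, [] => true
  | 0, a :: l => (a % 7 == 1) && (modL l).all (fun x => x == 0)
  | k + 1, a :: l => (a % 7 == 0) && isUnit7 k l

def chkRow (rs : List (List ℕ)) (l : ℕ) (c : List ℕ) : Bool :=
  let v := lincomb c rs
  decide (l < v.length) && isUnit7 l v

def chkAll (rs : List (List ℕ)) : ℕ → List (List ℕ) → Bool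
  | _, [] => true
  | l, c :: cs => chkRow rs l c && chkAll rs (l + 1) cs

theorem chk_true : (chkAll rows 0 cert && (cert.length == 65)) = true := by
  decide +kernel

end Pool.Agent.T9h64.NW
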