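import Pool.Agent.T9h19.RM.ZDefs

/-!
# The dual of a circuit
-/

set_option autoImplicit false

namespace Pool.Agent.T9h64.NW

open Finset Pool.Agent.H540R2 Pool.Agent.T9h19.RM

variable {n : ℕ}

/-- The dual node: the constants are negated. -/
def dNode : Node n → Node n
  | .var i => .var i
  | .const b => .const (!b)
  | .gate j => .gate j

/-- The dual gate: AND and OR are exchanged. -/
def dGate : Gate n → Gate n
  | .and a b => .or (dNode a) (dNode b)
  | .or a b => .and (dNode a) (dNode b)
  | .not a => .not (dNode a)

@[simp] lemma dNode_wires (j : ℕ) (a : Node n) : (dNode a).wires j = a.wires j := by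
  cases a <;> rfl

@[simp] lemma dNode_depth (d : ℕ → ℕ) (a : Node n) : (dNode a).depth d = a.depth d := by
  cases a <;> rfl

@[simp] lemma dNode_dNode (a : Node n) : dNode (dNode a) = a := by
  cases a <;> simp [dNode]

lemma dNode_gate {a : Node n} {j : ℕ} : dNode a = .gate j ↔ a = .gate j := by
  cases a <;> simp [dNode]

@[simp] lemma dGate_wires (j : ℕ) (g : Gate n) : (dGate g).wires j = g.wires j := by
  cases g <;> simp [dGate, Gate.wires]

@[simp] lemma dGate_depth (d : ℕ → ℕ) (g : Gate n) : (dGate g).depth d = g.depth d := by
  cases g <;> simp [dGate, Gate.depth]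

@[simp] lemma dGate_dGate (g : Gate n) : dGate (dGate g) = g := by
  cases g <;> simp [dGate]

@[simp] lemma dGate_isNot (g : Gate n) : (dGate g).isNot = g.isNot := by
  cases g <;> rfl

/-- The dual circuit: it computes the negation of `C` on the negation of the input. -/
def dual (C : Circuit n) : Circuit n where
  size := C.size
  gate i := dGate (C.gate i)
  out := dNode C.out
  gate_lt i hi j hj := C.gate_lt i hi j (by rwa [dGate_wires] at hj)
  out_lt j hj := C.out_lt j (by rwa [dNode_wires] at hj)

@[simp] lemma dual_size (C : Circuit n) : (dual C).size = C.size := rfl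

@[simp] lemma dual_dual (C : Circuit n) : dual (dual C) = C := by
  cases C
  simp [dual]

/-- The negation of an input. -/
def neg (x : Fin n → Bool) : Fin n → Bool := fun i => !x i

@[simp] lemma neg_neg' (x : Fin n → Bool) : neg (neg x) = x := by
  funext i
  simp [neg]

lemma neg_le_neg {x y : Fin n → Bool} : neg x ≤ neg y ↔ y ≤ x := by
  constructor
  · intro h i
    have h1 := h i
    revert h1
    simp only [neg]
    cases x i <;> cases y i <;> simp
  · intro h i
    have h1 := h i
    revert h1
    simp only [neg]
    cases x i <;> cases y i <;> simp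

lemma dNode_eval (x : Fin n → Bool) (v v' : ℕ → Bool) (a : Node n)
    (h : ∀ j, a.wires j ≠ 0 → v' j = !v j) : (dNode a).eval (neg x) v' = !(a.eval x v) := by
  cases a with
  | var i => rfl
  | const b => rfl
  | gate j => exact h j (by simp [Node.wires])

lemma dGate_eval (x : Fin n → Bool) (v v' : ℕ → Bool) (g : Gate n)
    (h : ∀ j, g.wires j ≠ 0 → v' j = !v j) : (dGate g).eval (neg x) v' = !(g.eval x v) := by
  cases g with
  | and a b =>
    show ((dNode a).eval (neg x) v' || (dNode b).eval (neg x) v') = !(a.eval x v && b.eval x v)
    rw [dNode_eval x v v' a, dNode_eval x v v' b, Bool.not_and]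
    · intro j hj
      exact h j (by simp only [Gate.wires]; omega)
    · intro j hj
      exact h j (by simp only [Gate.wires]; omega)
  | or a b =>
    show ((dNode a).eval (neg x) v' && (dNode b).eval (neg x) v') = !(a.eval x v || b.eval x v)
    rw [dNode_eval x v v' a, dNode_eval x v v' b, Bool.not_or]
    · intro j hj
      exact h j (by simp only [Gate.wires]; omega)
    · intro j hj
      exact h j (by simp only [Gate.wires]; omega)
  | not a =>
    show (!((dNode a).eval (neg x) v')) = !(!(a.eval x v))
    rw [dNode_eval x v v' a]
    intro j hj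
    exact h j hj

/-- the values of the gates of the dual circuit -/
theorem dual_val (C : Circuit n) (x : Fin n → Bool) {i : ℕ} (hi : i < C.size) :
    (dual C).val (neg x) i = !(C.val x i) := by
  induction i using Nat.strong_induction_on with
  | _ i ih =>
    rw [Circuit.val, Circuit.val]
    apply dGate_eval
    intro j hj
    have h1 := C.gate_lt i hi j hj
    rw [dif_pos h1, dif_pos h1]
    exact ih j h1 (h1.trans hi)

/-- the same with the negation on the other side -/
theorem dual_val' (C : Circuit n) (x : Fin n → Bool) {i : ℕ} (hi : i < C.size) :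
    (dual C).val x i = !(C.val (neg x) i) := by
  have h := dual_val C (neg x) hi
  rwa [neg_neg'] at h

theorem dual_eval (C : Circuit n) (x : Fin n → Bool) :
    (dual C).eval (neg x) = !(C.eval x) := by
  unfold Circuit.eval
  apply dNode_eval
  intro j hj
  exact dual_val C x (C.out_lt j hj)

theorem dual_eval' (C : Circuit n) (x : Fin n → Bool) :
    (dual C).eval x = !(C.eval (neg x)) := by
  have h := dual_eval C (neg x)
  rwa [neg_neg'] at h

theorem dual_gateDepth (C : Circuit n) (i : ℕ) : (dual C).gateDepth i = C.gateDepth i := by
  induction i using Nat.strong_induction_on with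
  | _ i ih =>
    rw [Circuit.gateDepth, Circuit.gateDepth]
    show (dGate (C.gate i)).depth _ = _
    rw [dGate_depth]
    congr 1
    funext j
    by_cases h : j < i
    · rw [dif_pos h, dif_pos h, ih j h]
    · rw [dif_neg h, dif_neg h]

theorem dual_depth (C : Circuit n) : (dual C).depth = C.depth := by
  unfold Circuit.depth
  show (dNode C.out).depth _ = _
  rw [dNode_depth]
  congr 1
  funext i
  exact dual_gateDepth C i

theorem dual_nots (C : Circuit n) : (dual C).nots = C.nots := by
  unfold Circuit.nots
  congr 1
  ext i
  simp [dual]

theorem dual_monotone {C : Circuit n} : (dual C).Monotone ↔ C.Monotone := by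
  have key : ∀ D : Circuit n, D.Monotone → (dual D).Monotone := by
    intro D h i hi a ha
    have h1 : dGate (D.gate i) = .not a := ha
    cases hg : D.gate i with
    | and b c => rw [hg] at h1; exact absurd h1 (by simp [dGate])
    | or b c => rw [hg] at h1; exact absurd h1 (by simp [dGate])
    | not b => exact h i hi b hg
  refine ⟨fun h => ?_, key C⟩
  have h1 := key _ h
  rwa [dual_dual] at h1

lemma gReads_dual {g : Gate n} {w : Node n} : GReads (dGate g) w ↔ GReads g (dNode w) := by
  have h1 : ∀ a : Node n, w = dNode a ↔ dNode w = a := fun a =>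
    ⟨fun h => by rw [h, dNode_dNode], fun h => by rw [← h, dNode_dNode]⟩
  cases g with
  | and a b => simp only [dGate, GReads, h1]
  | or a b => simp only [dGate, GReads, h1]
  | not a => simp only [dGate, GReads, h1]

lemma feeds_dual_of {C : Circuit n} {w : Node n} (h : Feeds C w) : Feeds (dual C) (dNode w) := by
  induction h with
  | out => exact Feeds.out
  | step j w _ hw ih =>
    refine Feeds.step j _ ih ?_
    show GReads (dGate (C.gate j)) (dNode w)
    rw [gReads_dual, dNode_dNode]
    exact hw

theorem feeds_dual {C : Circuit n} {w : Node n} : Feeds (dual C) (dNode w) ↔ Feeds C w := by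
  refine ⟨fun h => ?_, feeds_dual_of⟩
  have h1 := feeds_dual_of h
  rwa [dual_dual, dNode_dNode] at h1

/-- changes of the NOT gates of the dual circuit -/
theorem notChange_dual {C : Circuit n} {x z : Fin n → Bool} :
    NotChange (dual C) (neg x) (neg z) ↔ NotChange C x z := by
  unfold NotChange
  constructor
  · rintro ⟨i, hi, h1, h2, h3⟩
    refine ⟨i, hi, by simpa [dual] using h1, ?_, ?_⟩
    · exact (feeds_dual (w := .gate i)).1 h2
    · rw [dual_val C x hi, dual_val C z hi] at h3
      intro h4
      exact h3 (by rw [h4])
  · rintro ⟨i, hi, h1, h2, h3⟩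
    refine ⟨i, hi, by simpa [dual] using h1, ?_, ?_⟩
    · exact (feeds_dual (w := .gate i)).2 h2
    · rw [dual_val C x hi, dual_val C z hi]
      intro h4
      exact h3 (by simpa using h4)

theorem notChange_dual' {C : Circuit n} {x z : Fin n → Bool} :
    NotChange (dual C) x z ↔ NotChange C (neg x) (neg z) := by
  have h := notChange_dual (C := C) (x := neg x) (z := neg z)
  rwa [neg_neg', neg_neg'] at h

end Pool.Agent.T9h64.NW
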