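import Pool.Agent.T9h64.NW.Cert

set_option autoImplicit false
set_option linter.all false

namespace Pool.Agent.T9h64.NW

open Polynomial

/-- the complex polynomial with the given list of coefficients -/
noncomputable def toP : List ℕ → Polynomial ℂ
  | [] => 0
  | a :: l => C (a : ℂ) + X * toP l

theorem toP_addL : ∀ l m : List ℕ, toP (addL l m) = toP l + toP m
  | [], m => by simp [addL, toP]
  | a :: l, [] => by simp [addL, toP]
  | a :: l, b :: m => by
    simp only [addL, toP, toP_addL l m, Nat.cast_add, C_add]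
    ring

theorem toP_smulL (c : ℕ) : ∀ l : List ℕ, toP (smulL c l) = C (c : ℂ) * toP l
  | [] => by simp [smulL, toP]
  | a :: l => by
    simp only [smulL, toP, toP_smulL c l, Nat.cast_mul, C_mul]
    ring

theorem toP_mulL : ∀ l m : List ℕ, toP (mulL l m) = toP l * toP m
  | [], m => by simp [mulL, toP]
  | a :: l, m => by
    simp only [mulL, toP_addL, toP_smulL, toP, toP_mulL l m, Nat.cast_zero, C_0]
    ring

theorem toP_powL (l : List ℕ) : ∀ k : ℕ, toP (powL l k) = toP l ^ k
  | 0 => by simp [powL, toP]
  | k + 1 => by rw [powL, toP_mulL, toP_powL l k, pow_succ]; ring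

theorem toP_shiftL (l : List ℕ) : ∀ j : ℕ, toP (shiftL j l) = X ^ j * toP l
  | 0 => by simp [shiftL]
  | j + 1 => by
    rw [shiftL, toP, toP_shiftL l j, pow_succ]
    simp; ring

theorem toP_coeff : ∀ (l : List ℕ) (i : ℕ), (toP l).coeff i = ((l.getD i 0 : ℕ) : ℂ)
  | [], i => by simp [toP]
  | a :: l, 0 => by simp [toP]
  | a :: l, i + 1 => by
    simp [toP, toP_coeff l i, coeff_C]

theorem toP_lincomb_mem (S : Submodule ℂ (Polynomial ℂ)) : ∀ (cs : List ℕ) (rs : List (List ℕ)),
    (∀ r ∈ rs, toP r ∈ S) → toP (lincomb cs rs) ∈ S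
  | [], rs, _ => by simp [lincomb, toP]
  | c :: cs, [], _ => by simp [lincomb, toP]
  | c :: cs, r :: rs, h => by
    rw [lincomb, toP_addL, toP_smulL, ← smul_eq_C_mul]
    exact S.add_mem (S.smul_mem _ (h r (by simp)))
      (toP_lincomb_mem S cs rs (fun r' hr' => h r' (by simp [hr'])))

theorem modL_all : ∀ (l : List ℕ), (modL l).all (fun x => x == 0) = true →
    ∀ i, (l.getD i 0) % 7 = 0
  | [], _, i => by simp
  | a :: l, h, i => by
    simp only [modL, List.all_cons, Bool.and_eq_true, beq_iff_eq] at h
    cases i with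
    | zero => simpa using h.1
    | succ i => simpa using modL_all l h.2 i

theorem isUnit7_spec : ∀ (k : ℕ) (l : List ℕ), isUnit7 k l = true → k < l.length →
    ∀ i, (l.getD i 0) % 7 = if i = k then 1 else 0
  | k, [], _, hk, i => by simp at hk
  | 0, a :: l, h, _, i => by
    simp only [isUnit7, Bool.and_eq_true, beq_iff_eq] at h
    cases i with
    | zero => simpa using h.1
    | succ i => simpa using modL_all l h.2 i
  | k + 1, a :: l, h, hk, i => by
    simp only [isUnit7, Bool.and_eq_true, beq_iff_eq] at h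
    cases i with
    | zero => simpa using h.1
    | succ i =>
      have := isUnit7_spec k l h.2 (by simpa using hk) i
      simpa using this

theorem chkAll_spec (rs : List (List ℕ)) : ∀ (l : ℕ) (cs : List (List ℕ)), chkAll rs l cs = true →
    ∀ j < cs.length, chkRow rs (l + j) (cs.getD j []) = true
  | l, [], _, j, hj => by simp at hj
  | l, c :: cs, h, j, hj => by
    simp only [chkAll, Bool.and_eq_true] at h
    cases j with
    | zero => simpa using h.1
    | succ j =>
      have := chkAll_spec rs (l + 1) cs h.2 j (by simpa using hj)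
      rw [show l + (j + 1) = l + 1 + j by ring]
      simpa using this

/-- the combination with index `l` -/
noncomputable def comb (l : ℕ) : List ℕ := lincomb (cert.getD l []) rows

theorem comb_mod (l : ℕ) (hl : l < 65) (i : ℕ) :
    ((comb l).getD i 0) % 7 = if i = l then 1 else 0 := by
  have h := chk_true
  simp only [Bool.and_eq_true, beq_iff_eq] at h
  have h1 := chkAll_spec rows 0 cert h.1 l (by rw [h.2]; exact hl)
  rw [zero_add] at h1
  unfold chkRow at h1
  simp only [Bool.and_eq_true, decide_eq_true_eq] at h1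
  exact isUnit7_spec _ _ h1.2 h1.1 i

/-- integer matrix of the combinations -/
noncomputable def Amat : Matrix (Fin 65) (Fin 65) ℤ := fun l i => (((comb l).getD i 0 : ℕ) : ℤ)

theorem Amat_mod : Amat.map (Int.castRingHom (ZMod 7)) = 1 := by
  ext l i
  simp only [Amat, Matrix.map_apply, Int.coe_castRingHom, Int.cast_natCast]
  have h := comb_mod l l.2 i
  rw [Matrix.one_apply]
  have h2 : (((comb l).getD i 0 : ℕ) : ZMod 7) = (((comb l).getD i 0 % 7 : ℕ) : ZMod 7) := by
    rw [ZMod.natCast_mod]
  rw [h2, h]
  by_cases hli : l = i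
  · subst hli; simp
  · rw [if_neg hli, if_neg (fun h => hli (Fin.ext h).symm)]
    simp

theorem Amat_det : Amat.det ≠ 0 := by
  intro h
  have h1 : (Int.castRingHom (ZMod 7)) Amat.det = 1 := by
    rw [RingHom.map_det]
    have : (Int.castRingHom (ZMod 7)).mapMatrix Amat = 1 := Amat_mod
    rw [this, Matrix.det_one]
  rw [h, map_zero] at h1
  exact absurd h1 (by decide)

theorem AC_isUnit : IsUnit (Amat.map (Int.castRingHom ℂ)) := by
  rw [Matrix.isUnit_iff_isUnit_det, isUnit_iff_ne_zero]
  have : (Amat.map (Int.castRingHom ℂ)).det = (Int.castRingHom ℂ) Amat.det := by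
    rw [RingHom.map_det]; rfl
  rw [this]
  simpa using Amat_det

/-- every vector is the coefficient vector of an element of a submodule containing the rows -/
theorem exists_mem (S : Submodule ℂ (Polynomial ℂ)) (hS : ∀ r ∈ rows, toP r ∈ S)
    (y : Fin 65 → ℂ) : ∃ v ∈ S, ∀ i : Fin 65, v.coeff (i : ℕ) = y i := by
  obtain ⟨B, hB⟩ := AC_isUnit.exists_left_inv
  have hz : Matrix.vecMul (Matrix.vecMul y B) (Amat.map (Int.castRingHom ℂ)) = y := by
    rw [Matrix.vecMul_vecMul, hB, Matrix.vecMul_one]
  set z := Matrix.vecMul y B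
  refine ⟨∑ l : Fin 65, z l • toP (comb l), ?_, ?_⟩
  · exact Submodule.sum_mem _ fun l _ => S.smul_mem _ (toP_lincomb_mem S _ _ hS)
  · intro i
    rw [finset_sum_coeff]
    have := congrFun hz i
    rw [← this]
    simp only [Matrix.vecMul, dotProduct]
    refine Finset.sum_congr rfl fun l _ => ?_
    rw [coeff_smul, smul_eq_mul, toP_coeff]
    simp [Amat]

end Pool.Agent.T9h64.NW
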